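import Pool.Agent.Run7.h165.CC.All
import Pool.Agent.H342R3.Tig.PRK

/-! # Relative compactness of the laws of bounded collections; subsequences -/

set_option autoImplicit false

namespace Run7.h165.CC

open H974 H12S Finset MeasureTheory TopologicalSpace Filter Topology H342T
open Run7.h561.CC (Seq IsUn lawE lawE_apply)
open Pool.Agent.TH990.FU (zp)
open scoped ENNReal

theorem pq_false {E : Finset Edg} {A : Finset Edg → Prop} (h : ∀ F ⊆ E, ¬ A F) :
    PQ (1 / 2) E A = 0 := by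
  unfold PQ Pr
  rw [Ex_congr (g := fun _ => 0) (fun F hF => ind_not_of (h F hF)), Ex_const]

/-- **(a)** bounded collections -/
theorem rel_compact {s : Seq} {C : ℕ → Finset Edg → NonemptyCompacts (NonemptyCompacts ℂ)}
    {B : Set ℂ} (hB : IsCompact B) (hC : ∀ n, ∀ F ⊆ s.E n, ∀ K ∈ C n F, (K : Set ℂ) ⊆ B) :
    ∃ (φ : ℕ → ℕ) (μ : ProbabilityMeasure (NonemptyCompacts (NonemptyCompacts ℂ))),
      StrictMono φ ∧ Tendsto (fun i => s.law C (φ i)) atTop (𝓝 μ) := by
  have hK := NonemptyCompacts.isCompact_subsets_of_isCompact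
    (NonemptyCompacts.isCompact_subsets_of_isCompact hB)
  refine PRK_gen (fun i => s.law C i) fun ε _ => ⟨_, hK, fun n => ?_⟩
  refine le_trans (le_of_eq ?_) (zero_le)
  unfold Seq.law
  rw [lawE_apply _ _ hK.isClosed.measurableSet.compl, pq_false, ENNReal.ofReal_zero]
  intro F hF hnot
  apply hnot
  intro K hK
  exact hC n F hF K hK

/-- A subsequence. -/
def sub (s : Seq) (φ : ℕ → ℕ) (hφ : StrictMono φ) : Seq where
  δ := fun i => s.δ (φ i)
  o := fun i => s.o (φ i)
  E := fun i => s.E (φ i)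
  G := fun i => s.G (φ i)
  pos := fun _ => s.pos _
  lim := s.lim.comp hφ.tendsto_atTop

theorem sub_agree {s : Seq} {D : Set ℂ} (h : s.Agree D) {φ : ℕ → ℕ} (hφ : StrictMono φ) :
    (sub s φ hφ).Agree D := fun L hL hc => hφ.tendsto_atTop.eventually (h L hL hc)

theorem sub_rule {s : Seq} {c0 : ℝ} {C : ℕ → Finset Edg → NonemptyCompacts (NonemptyCompacts ℂ)}
    (h : s.Rule c0 C) {φ : ℕ → ℕ} (hφ : StrictMono φ) :
    (sub s φ hφ).Rule c0 (fun i => C (φ i)) := fun n F hF K hK => h (φ n) F hF K hK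

theorem body_sub {δ : ℝ} {o : ℂ} {G : Set Edg} {v : Vtx} {B : Set ℂ} (hB : Convex ℝ B)
    (h : ∀ u, Reach G v u → zp δ o u ∈ B) : body δ o G v ⊆ B := by
  rintro x (hx | hx)
  · rw [Set.mem_singleton_iff.1 hx]
    exact h v Relation.ReflTransGen.refl
  · simp only [Set.mem_iUnion] at hx
    obtain ⟨e, ⟨he, h1⟩, h2⟩ := hx
    exact hB.segment_subset (h _ h1) (h _ (reach_tgt he h1)) h2

end Run7.h165.CC
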