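import Pool.Agent.Run7.h165.CC.Upp1
import Pool.Agent.Run7.h561.CC.Stm

/-! # Unions of clusters in general domains: the upper bound -/

set_option autoImplicit false

namespace Run7.h165.CC

open H974 H973 H12S Finset H389NS H984P H984N H342P H342L H342T H443B
open MeasureTheory Filter Topology Pool.Agent.W92.DP Pool.Agent.W822.PD Pool.Agent.W462.DPL
open Pool.Agent.W978.PDUL Pool.Agent.TH990.FU Run7.h165.EC
open Pool.Agent.W424.OD Pool.Agent.W571.DPad TopologicalSpace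
open scoped ENNReal NNReal

/-- The boundary of a component of the complement of `K` in an open set is accessible. -/
theorem comp_accU {K U : Set ℂ} (hK : IsClosed K) (hU : IsOpen U) (x : ℂ) :
    frontier (connectedComponentIn (U \ K) x) ∩ U ⊆ ⋃ i : ℕ, AccK (1 / ((i:ℝ) + 1)) K := by
  rintro w ⟨hw, hwU⟩
  have hVo : IsOpen (U \ K) := hU.sdiff hK
  by_cases hx : x ∈ U \ K
  swap
  · rw [connectedComponentIn_eq_empty hx, frontier_empty] at hw
    exact absurd hw (Set.notMem_empty _)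
  set C := connectedComponentIn (U \ K) x with hC
  have hCo : IsOpen C := hVo.connectedComponentIn
  have hCc : IsConnected C := isConnected_connectedComponentIn_iff.mpr hx
  have hxC : x ∈ C := mem_connectedComponentIn hx
  have hpc : IsPathConnected C := (hCo.isConnected_iff_isPathConnected).1 hCc
  have hwC : w ∉ C := by
    rw [frontier, hCo.interior_eq] at hw
    exact hw.2
  have hcl : w ∈ closure C := frontier_subset_closure hw
  have hwK : w ∈ K := by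
    by_contra hcon
    have ho : IsOpen (connectedComponentIn (U \ K) w) := hVo.connectedComponentIn
    obtain ⟨y, hy1, hy2⟩ := mem_closure_iff.1 hcl _ ho (mem_connectedComponentIn ⟨hwU, hcon⟩)
    apply hwC
    have h1 := connectedComponentIn_eq hy1
    have h2 := connectedComponentIn_eq hy2
    rw [hC, h2, ← h1]
    exact mem_connectedComponentIn ⟨hwU, hcon⟩
  have hxw : 0 < dist x w := dist_pos.2 (fun h => hwC (h ▸ hxC))
  obtain ⟨i, hi⟩ := exists_nat_one_div_lt hxw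
  refine Set.mem_iUnion.2 ⟨i, hwK, ?_, fun r hr => ?_⟩
  · rw [div_le_one (by positivity)]
    have : (0:ℝ) ≤ i := Nat.cast_nonneg _
    linarith
  obtain ⟨y, hy, hyw⟩ := Metric.mem_closure_iff.mp hcl r hr
  obtain ⟨γ, hγ⟩ := hpc.joinedIn y hy x hxC
  refine ⟨⟨γ, γ.continuous⟩, ?_, ?_, fun t => ?_⟩
  · show dist (γ 0) w < r
    rw [γ.source, dist_comm]
    exact hyw
  · show _ ≤ dist (γ 1) w
    rw [γ.target]
    exact hi.le
  · exact (connectedComponentIn_subset _ _ (hγ t)).2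

section gen
variable {Ω : Type*} [TopologicalSpace Ω] [MeasurableSpace Ω] [OpensMeasurableSpace Ω]

/-- **upper bound from the bounds of the probabilities** -/
theorem upA {Sel : Ω → Set (NonemptyCompacts ℂ)}
    (hSel : ∀ E : Set (NonemptyCompacts ℂ), IsOpen E → IsOpen {ω | ∃ K ∈ Sel ω, K ∈ E})
    {D : Set ℂ} (hD : IsOpen D) {ε r0 C : ℝ} (hr0 : 0 < r0) (hC0 : 0 ≤ C)
    {μ : ProbabilityMeasure Ω}
    (hb : ∀ (z : ℂ) (r d ζ : ℝ), 0 < r → 0 < d → d ≤ r0 → Metric.closedBall z (d / 2) ⊆ D →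
      0 < ζ → (μ : Measure Ω) {ω | ∃ K ∈ Sel ω, K ∈ {K : NonemptyCompacts ℂ | Wide ε K} ∩
        EvC z r (d / 2) ζ} ≤ ENNReal.ofReal (C * (r / d) ^ (2/3 : ℝ))) (A : Set ℂ) :
    ∀ᵐ ω ∂(μ : Measure Ω), ∀ K ∈ Sel ω, Wide ε K → ∀ U : Set ℂ, IsOpen U → ∀ w : ℂ,
      dimH (frontier (connectedComponentIn (U \ (K : Set ℂ)) w) ∩ A ∩ (U ∩ D)) ≤
        dimH A - ENNReal.ofReal (2/3) := by
  set EV : ℝ → ℂ → ℝ → Set Ω := fun d z r => if d ≤ 1 then
    {ω | ∃ K ∈ Sel ω, K ∈ {K : NonemptyCompacts ℂ | Wide ε K} ∩ EvU z r (min d r0 / 2)} else ∅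
    with hEV
  have hEo : ∀ (d : ℝ) (z : ℂ) (r : ℝ), IsOpen (EV d z r) := by
    intro d z r
    rw [hEV]
    simp only
    split_ifs
    · exact hSel _ ((wide_open ε).inter (EvU_open _ _ _))
    · exact isOpen_empty
  have hm0 : 0 < min 1 r0 := lt_min one_pos hr0
  have key := fixed_dim (E := EV) (fun d z r => (hEo d z r).measurableSet)
    (S := fun η ω => ⋃ K ∈ Sel ω, {w | Wide ε K ∧ w ∈ AccK η K}) ?_ hD
    (C := C * (1 / min 1 r0) ^ (2/3 : ℝ)) (s := 2/3) (by positivity) (by norm_num)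
    (μ := (μ : Measure Ω)) ?_ A
  · filter_upwards [key] with ω hω K hK hw U hU w
    refine (dimH_mono ?_).trans hω.1
    rintro y ⟨⟨hy1, hy2⟩, hy3, hy4⟩
    refine ⟨⟨?_, hy2⟩, hy4⟩
    obtain ⟨i, hi⟩ := Set.mem_iUnion.1 (comp_accU K.isCompact.isClosed hU w ⟨hy1, hy3⟩)
    exact Set.mem_iUnion.2 ⟨i, Set.mem_biUnion hK ⟨hw, hi⟩⟩
  · -- the accessible points belong to the events
    intro η d z r w ω hdη hrd hw hwz
    obtain ⟨K, hK, hwide, hacc⟩ := Set.mem_iUnion₂.1 hw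
    rw [hEV]
    simp only
    rw [if_pos (hdη.trans hacc.2.1)]
    refine ⟨K, hK, hwide, EvU_of hacc hwz ?_⟩
    have := min_le_left d r0
    linarith
  · -- the probabilities
    intro z r d hr hrd hball
    rw [hEV]
    simp only
    split_ifs with hd1
    swap
    · rw [measure_empty]
      exact zero_le
    have hd0 : 0 < d := hr.trans_le hrd
    set d' : ℝ := min d r0 with hd'
    have hd'0 : 0 < d' := lt_min hd0 hr0
    have hd'd : d * min 1 r0 ≤ d' := by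
      apply le_min
      · have := min_le_left 1 r0
        nlinarith
      · have := min_le_right 1 r0
        nlinarith
    have hbound : C * (r / d') ^ (2/3 : ℝ) ≤ C * (1 / min 1 r0) ^ (2/3 : ℝ) *
        (r / d) ^ (2/3 : ℝ) := by
      rw [mul_assoc, ← Real.mul_rpow (by positivity) (by positivity)]
      apply mul_le_mul_of_nonneg_left _ hC0
      apply Real.rpow_le_rpow (by positivity) _ (by norm_num)
      have h1 : 1 / min 1 r0 * (r / d) = r / (d * min 1 r0) := by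
        field_simp
      rw [h1]
      exact div_le_div_of_nonneg_left hr.le (by positivity) hd'd
    refine le_trans ?_ (ENNReal.ofReal_le_ofReal hbound)
    set Ej : ℕ → Set Ω := fun j => {ω | ∃ K ∈ Sel ω, K ∈ {K : NonemptyCompacts ℂ | Wide ε K} ∩
      EvC z r (d' / 2) (1 / ((j:ℝ) + 1))} with hEj
    have hmono : Monotone Ej := by
      rintro i j hij ω ⟨K, hK, h1, h2⟩
      exact ⟨K, hK, h1, EvC_anti (Nat.one_div_le_one_div hij) h2⟩
    have h : {ω | ∃ K ∈ Sel ω, K ∈ {K : NonemptyCompacts ℂ | Wide ε K} ∩ EvU z r (d' / 2)} =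
        ⋃ j : ℕ, Ej j := by
      ext ω
      simp only [Set.mem_iUnion, hEj, Set.mem_ofPred_eq, EvU, Set.mem_inter_iff]
      constructor
      · rintro ⟨K, hK, h1, j, h2⟩
        exact ⟨j, K, hK, h1, h2⟩
      · rintro ⟨j, K, hK, h1, h2⟩
        exact ⟨K, hK, h1, j, h2⟩
    rw [h, hmono.measure_iUnion]
    refine iSup_le fun j => ?_
    refine hb z r d' _ hr hd'0 (min_le_right _ _) ?_ (by positivity)
    refine (Metric.closedBall_subset_ball ?_).trans hball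
    have := min_le_left d r0
    linarith

end gen

/-- the probability bound -/
theorem probS (hU : U3) : ∃ C : ℝ, 0 ≤ C ∧ ∀ (δ : ℝ) (o z : ℂ) (r d ζ : ℝ) (E : Finset Edg)
    (G : Finset Edg → Set Edg) (P : Finset Edg → Prop), 0 < δ → 0 < r → 0 < d →
      (∀ e : Edg, zp δ o (src e) ∈ Metric.closedBall z (d / 2) →
        zp δ o (tgt e) ∈ Metric.closedBall z (d / 2) → e ∈ E ∧ ∀ F ⊆ E, (e ∈ G F ↔ e ∈ F)) →
      (∀ F ⊆ E, P F → ∃ (S : Set Vtx) (u v : Vtx) (g : C(unitInterval, ℂ)),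
        (∀ u ∈ S, ∀ v, Reach (G F) u v → v ∈ S) ∧ S.Finite ∧ u ∈ S ∧
        dist (zp δ o u) z < r ∧ Reach (G F) u v ∧ d < dist (zp δ o u) (zp δ o v) ∧
        dist (g 0) z < r ∧ d / 2 < dist (g 1) z ∧ ∀ w ∈ S, ∀ t, ζ ≤ dist (g t) (zp δ o w)) →
      δ ≤ r → 16 * δ ≤ ζ →
        PQ (1/2) E P ≤ C * (r / d) ^ (2/3 : ℝ) := by
  obtain ⟨Cd, hCd, hD'⟩ := u3d hU
  obtain ⟨Ca, hCa, hA'⟩ := hU
  refine ⟨(Ca + Cd + 1) * 256 ^ (2/3 : ℝ), by positivity, ?_⟩
  intro δ o z r d ζ S G P hδ hr hd0 hagr hX hδr hζ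
  have hq : 0 < r / d := by positivity
  have hRHS : (Ca + Cd + 1) * 256 ^ (2/3 : ℝ) * (r / d) ^ (2/3 : ℝ) =
      (Ca + Cd + 1) * (256 * (r / d)) ^ (2/3 : ℝ) := by
    rw [Real.mul_rpow (by norm_num) hq.le]
    ring
  rw [hRHS]
  by_cases h256 : 256 * r ≤ d
  · obtain ⟨s1, s2, s3, s4⟩ := sizes hδ hδr h256
    set m : ℕ := ⌊d / (8 * δ)⌋₊ - 2 with hm
    -- the edges of the block are near `z`
    have hgeo : ∀ e ∈ H12S.blk (vz δ o z) (m + 1),
        zp δ o (src e) ∈ Metric.closedBall z (d / 2) ∧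
          zp δ o (tgt e) ∈ Metric.closedBall z (d / 2) := by
      have hk : ((m + 1 : ℕ) : ℝ) ≤ d / (8 * δ) := by
        have h6 : (⌊d / (8 * δ)⌋₊ : ℝ) ≤ d / (8 * δ) := Nat.floor_le (by positivity)
        have h7 : ((m + 1 : ℕ) : ℝ) ≤ (⌊d / (8 * δ)⌋₊ : ℝ) := by
          have : m + 1 ≤ ⌊d / (8 * δ)⌋₊ := by omega
          exact_mod_cast this
        linarith
      have h6 : 2 * δ * ((m + 1 : ℕ) : ℝ) ≤ d / 4 := by
        calc 2 * δ * ((m + 1 : ℕ) : ℝ) ≤ 2 * δ * (d / (8 * δ)) :=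
              mul_le_mul_of_nonneg_left hk (by positivity)
          _ = d / 4 := by
              field_simp
              norm_num
      have key : ∀ w : Vtx, Pool.Agent.W424.OD.BX (vz δ o z) (m + 1) w →
          dist (zp δ o w) z ≤ d / 2 := by
        intro w hw
        have h8 := of_box hδ hw
        have h9 : (256:ℝ) * δ ≤ d := by
          have := mul_le_mul_of_nonneg_left hδr (by norm_num : (0:ℝ) ≤ 256)
          linarith
        refine h8.trans ?_
        linarith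
      intro e he
      obtain ⟨h1, h2⟩ := blk_mem he
      exact ⟨key _ h1, key _ h2⟩
    have hblkS : H12S.blk (vz δ o z) (m + 1) ⊆ S := by
      intro e he
      obtain ⟨h1, h2⟩ := hgeo e he
      exact (hagr e h1 h2).1
    have h1 := hA' (vz δ o z) (⌈r / δ⌉₊ + 3 + 2) m (by omega) s2 S
      ((blk_mono1 m).trans hblkS)
    have h2 := hD' (vz δ o z) (⌈r / δ⌉₊ + 3 + 2) m (by omega) s2 S hblkS
    have hmono : PQ (1/2) S P ≤
        PQ (1/2) S (fun F =>
          A3v (vz δ o z) (⌈r / δ⌉₊ + 3 + 2) m ↑F ∨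
          A3v (vz δ o z) (⌈r / δ⌉₊ + 3 + 2) m (dl '' (↑F : Set Edg)ᶜ)) := by
      refine Pr_mono okh ?_
      intro F hF hE
      obtain ⟨S', u, v, g, a1, a2, a3, a4, a5, a6, a7, a8, a9⟩ := hX F hF hE
      have hdet := detS hδ hδr h256 hζ a1 a2 a3 a4 a5 a6 a7 a8 a9
      have hcong : ∀ e ∈ H12S.blk (vz δ o z) (m + 1), (e ∈ G F ↔ e ∈ (↑F : Set Edg)) := by
        intro e he
        obtain ⟨h1, h2⟩ := hgeo e he
        rw [Finset.mem_coe]
        exact (hagr e h1 h2).2 F hF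
      rcases hdet with h | h
      · exact Or.inl ((A3v_congr' hcong).1 h)
      · exact Or.inr ((A3v_congr_dual hcong).1 h)
    have hor := Pr_or_le okh S
      (fun F => A3v (vz δ o z) (⌈r / δ⌉₊ + 3 + 2) m ↑F)
      (fun F => A3v (vz δ o z) (⌈r / δ⌉₊ + 3 + 2) m (dl '' (↑F : Set Edg)ᶜ))
    have hpow : (((⌈r / δ⌉₊ + 3 + 2 : ℕ) : ℝ) / (m : ℝ)) ^ (2/3 : ℝ) ≤
        (256 * (r / d)) ^ (2/3 : ℝ) :=
      Real.rpow_le_rpow (by positivity) s4 (by norm_num)
    have hx0 : 0 ≤ (256 * (r / d)) ^ (2/3 : ℝ) := by positivity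
    have h3 := mul_le_mul_of_nonneg_left hpow hCa.le
    have h4 := mul_le_mul_of_nonneg_left hpow hCd.le
    have h5 := hmono.trans (hor.trans (add_le_add (h1.trans h3) (h2.trans h4)))
    refine h5.trans ?_
    nlinarith
  · push Not at h256
    have h1 : PQ (1/2) S P ≤ 1 := Pr_le_one okh _ _
    refine h1.trans ?_
    have h2 : 1 ≤ 256 * (r / d) := by
      rw [← mul_div_assoc, le_div_iff₀ hd0]
      linarith
    have h3 : 1 ≤ (256 * (r / d)) ^ (2/3 : ℝ) := Real.one_le_rpow h2 (by norm_num)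
    nlinarith

theorem near_finite {δ : ℝ} (hδ : 0 < δ) (o : ℂ) {K : Set ℂ} (hK : Bornology.IsBounded K)
    {S : Set Vtx} (hS : ∀ u ∈ S, ∃ z ∈ K, dist z (zp δ o u) ≤ δ) : S.Finite := by
  obtain ⟨R, hR⟩ := hK.subset_closedBall 0
  have key : ∀ (a b : ℝ) (x : ℤ), |a + δ * x| ≤ b → x ∈ Set.Icc (⌊-(b + |a|) / δ⌋) (⌈(b + |a|) / δ⌉) := by
    intro a b x h
    have h1 := abs_le.1 h
    have h2 := abs_le.1 (le_refl |a|)
    constructor
    · have : (-(b + |a|)) / δ ≤ x := by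
        rw [div_le_iff₀ hδ]
        nlinarith
      exact_mod_cast (Int.floor_le _).trans this
    · have : (x : ℝ) ≤ (b + |a|) / δ := by
        rw [le_div_iff₀ hδ]
        nlinarith
      exact_mod_cast this.trans (Int.le_ceil _)
  refine ((Set.finite_Icc (⌊-((R + δ) + |o.re|) / δ⌋) (⌈((R + δ) + |o.re|) / δ⌉)).prod
    (Set.finite_Icc (⌊-((R + δ) + |o.im|) / δ⌋) (⌈((R + δ) + |o.im|) / δ⌉))).subset ?_
  intro u hu
  obtain ⟨z, hz, hd⟩ := hS u hu
  have h1 := hR hz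
  rw [Metric.mem_closedBall] at h1
  have h2 : dist (zp δ o u) 0 ≤ R + δ := by
    have := dist_triangle_left (zp δ o u) 0 z
    linarith
  rw [dist_zero_right] at h2
  exact ⟨key _ _ _ ((Complex.abs_re_le_norm (zp δ o u)).trans h2),
    key _ _ _ ((Complex.abs_im_le_norm (zp δ o u)).trans h2)⟩

theorem nontrivial_wide {K : Set ℂ} (h : K.Nontrivial) : ∃ i : ℕ, Wide (1 / ((i:ℝ) + 1)) K := by
  obtain ⟨a, ha, b, hb, hab⟩ := h
  obtain ⟨i, hi⟩ := exists_nat_one_div_lt (dist_pos.2 hab)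
  exact ⟨i, a, ha, b, hb, hi⟩

theorem ncc_open (E : Set (NonemptyCompacts ℂ)) (hE : IsOpen E) :
    IsOpen {𝒞 : NonemptyCompacts (NonemptyCompacts ℂ) |
      ∃ K ∈ (𝒞 : Set (NonemptyCompacts ℂ)), K ∈ E} := by
  rw [Metric.isOpen_iff]
  rintro 𝒞 ⟨K, hK, hKE⟩
  obtain ⟨ε, hε, hb⟩ := Metric.isOpen_iff.1 hE K hKE
  refine ⟨ε, hε, fun 𝒞' h => ?_⟩
  rw [Metric.mem_ball, dist_comm] at h
  obtain ⟨K', hK', hd⟩ := nc_near h K hK
  exact ⟨K', hK', hb (by rwa [Metric.mem_ball, dist_comm])⟩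

/-- **UPP**, for the intersections with a fixed set -/
theorem t_UPPA (hU : U3) (s : Run7.h561.CC.Seq) (D : Set ℂ) (hD : IsOpen D) (hag : s.Agree D)
    (c0 : ℝ) (hc0 : 0 < c0) (C : ℕ → Finset Edg → NonemptyCompacts (NonemptyCompacts ℂ))
    (hC : s.Rule c0 C) (μ : ProbabilityMeasure (NonemptyCompacts (NonemptyCompacts ℂ)))
    (hμ : Tendsto (fun n => s.law C n) atTop (𝓝 μ)) (A : Set ℂ) :
    ∀ᵐ 𝒞 : NonemptyCompacts (NonemptyCompacts ℂ)
      ∂(μ : Measure (NonemptyCompacts (NonemptyCompacts ℂ))),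
      ∀ K ∈ 𝒞, (K : Set ℂ).Nontrivial → ∀ U : Set ℂ, IsOpen U → ∀ w : ℂ,
        dimH (frontier (connectedComponentIn (U \ (K : Set ℂ)) w) ∩ A ∩ (U ∩ D)) ≤
          dimH A - ENNReal.ofReal (2/3) := by
  obtain ⟨Cp, hCp, hP⟩ := probS hU
  have key : ∀ᵐ 𝒞 : NonemptyCompacts (NonemptyCompacts ℂ)
      ∂(μ : Measure (NonemptyCompacts (NonemptyCompacts ℂ))), ∀ i : ℕ,
      ∀ K ∈ (𝒞 : Set (NonemptyCompacts ℂ)), Wide (1 / ((i:ℝ) + 1)) (K : Set ℂ) →
        ∀ U : Set ℂ, IsOpen U → ∀ w : ℂ,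
        dimH (frontier (connectedComponentIn (U \ (K : Set ℂ)) w) ∩ A ∩ (U ∩ D)) ≤
          dimH A - ENNReal.ofReal (2/3) := by
    rw [ae_all_iff]
    intro i
    have hi0 : (0:ℝ) < 1 / ((i:ℝ) + 1) := by positivity
    refine upA (Ω := NonemptyCompacts (NonemptyCompacts ℂ))
      (Sel := fun 𝒞 => (𝒞 : Set (NonemptyCompacts ℂ))) ncc_open hD
      (r0 := c0 * (1 / ((i:ℝ) + 1))) (by positivity)
      (C := Cp * 2 ^ (2/3 : ℝ)) (by positivity) ?_ A
    intro z r d ζ hr hd hdr hball hζ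
    have hopen : IsOpen {𝒞 : NonemptyCompacts (NonemptyCompacts ℂ) |
        ∃ K ∈ (𝒞 : Set (NonemptyCompacts ℂ)),
          K ∈ {K : NonemptyCompacts ℂ | Wide (1 / ((i:ℝ) + 1)) K} ∩ EvC z r (d / 2) ζ} :=
      ncc_open _ ((wide_open _).inter (EvC_open _ _ _ _))
    refine (ProbabilityMeasure.le_liminf_measure_open_of_tendsto hμ hopen).trans ?_
    refine liminf_le_of_frequently_le (Eventually.frequently ?_)
    have hpos : 0 < min r (ζ / 32) := lt_min hr (by positivity)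
    filter_upwards [s.lim.eventually (gt_mem_nhds hpos), hag _ hball (isCompact_closedBall _ _)]
      with n hn hn2
    have k1 := hn.le.trans (min_le_left _ _)
    have k2 := hn.le.trans (min_le_right _ _)
    have hδ := s.pos n
    have hlaw : ((s.law C n : ProbabilityMeasure _) : Measure _)
        {𝒞 : NonemptyCompacts (NonemptyCompacts ℂ) | ∃ K ∈ (𝒞 : Set (NonemptyCompacts ℂ)),
          K ∈ {K : NonemptyCompacts ℂ | Wide (1 / ((i:ℝ) + 1)) K} ∩ EvC z r (d / 2) ζ} = _ :=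
      Run7.h561.CC.lawE_apply (s.E n) (C n) hopen.measurableSet
    rw [hlaw]
    apply ENNReal.ofReal_le_ofReal
    have e1 : Cp * 2 ^ (2/3 : ℝ) * (r / d) ^ (2/3 : ℝ) = Cp * (2 * r / d) ^ (2/3 : ℝ) := by
      rw [mul_assoc, ← Real.mul_rpow (by norm_num) (by positivity), mul_div_assoc]
    rw [e1]
    refine hP (s.δ n) (s.o n) z (2 * r) d (ζ / 2) (s.E n) (s.G n) _ hδ (by positivity) hd hn2 ?_
      (by linarith) (by linarith)
    rintro F hF ⟨K, hK, hwide, ⟨q, hq, hqz⟩, g, hg0, hg1, ζ', hζ', hg⟩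
    obtain ⟨S, h1, h2, h3, h4⟩ := hC n F hF K hK
    obtain ⟨u, hu, hqu⟩ := h4 q hq
    obtain ⟨v, huv, hdv⟩ := h2 u hu
    refine ⟨S, u, v, g, h1, near_finite hδ (s.o n) K.isCompact.isBounded h3, hu, ?_, huv, ?_,
      by linarith, hg1, ?_⟩
    · have := dist_triangle_left (zp (s.δ n) (s.o n) u) z q
      linarith
    · obtain ⟨a, ha, b, hb, hab⟩ := hwide
      have hd1 := Metric.dist_le_diam_of_mem K.isCompact.isBounded ha hb
      have hd2 : c0 * (1 / ((i:ℝ) + 1)) < c0 * Metric.diam (K : Set ℂ) :=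
        mul_lt_mul_of_pos_left (hab.trans_le hd1) hc0
      linarith
    · intro w hw t
      obtain ⟨p, hp, hpw⟩ := h3 w hw
      have h5 := hg p hp t
      have h6 := dist_triangle_right (g t) p (zp (s.δ n) (s.o n) w)
      linarith
  filter_upwards [key] with 𝒞 h K hK hnt U hU' w
  obtain ⟨i, hi⟩ := nontrivial_wide hnt
  exact h i K hK hi U hU' w

theorem two_sub : (dimH (Set.univ : Set ℂ)) - ENNReal.ofReal (2/3) = 4 / 3 := by
  have h1 : dimH (Set.univ : Set ℂ) = 2 := by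
    rw [Real.dimH_univ_eq_finrank (E := ℂ), Complex.finrank_real_complex]
    norm_num
  rw [h1, show (2 : ℝ≥0∞) = ENNReal.ofReal 2 by norm_num, ← ENNReal.ofReal_sub _ (by norm_num),
    ← e43']
  norm_num

/-- **UPP** -/
theorem t_UPP (hU : U3) : Run7.h561.CC.S_UPP := by
  intro s D hD hag c0 hc0 C hC μ hμ
  filter_upwards [t_UPPA hU s D hD hag c0 hc0 C hC μ hμ Set.univ] with 𝒞 h K hK hnt U hU' w
  have := h K hK hnt U hU' w
  rwa [Set.inter_univ, two_sub] at this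

end Run7.h165.CC
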