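import Pool.Agent.Run7.h561.CC.Stm
import Pool.Agent.Run7.h165.EC.Hol3

/-! # The collection of all clusters; relative compactness -/

set_option autoImplicit false

namespace Run7.h165.CC

open H974 H12S Finset MeasureTheory TopologicalSpace Filter Topology
open Run7.h561.CC (Seq IsUn lawE)
open Pool.Agent.TH990.FU (zp)
open scoped ENNReal

/-- The cluster of `v` in the plane: its vertices and its edges. -/
def body (δ : ℝ) (o : ℂ) (G : Set Edg) (v : Vtx) : Set ℂ :=
  {zp δ o v} ∪ ⋃ e ∈ {e : Edg | e ∈ G ∧ Reach G v (src e)}, segment ℝ (zp δ o (src e)) (zp δ o (tgt e))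

/-- `C` is the collection of the clusters of all the vertices of `V n`. -/
def AllCl (s : Seq) (V : ℕ → Set Vtx) (C : ℕ → Finset Edg → NonemptyCompacts (NonemptyCompacts ℂ)) :
    Prop :=
  ∀ n, ∀ F ⊆ s.E n, ∀ K : NonemptyCompacts ℂ,
    K ∈ C n F ↔ ∃ v ∈ V n, (K : Set ℂ) = body (s.δ n) (s.o n) (s.G n F) v

theorem mem_body {δ : ℝ} {o : ℂ} {G : Set Edg} {v u : Vtx} (h : Reach G v u) :
    zp δ o u ∈ body δ o G v := by
  rcases Relation.ReflTransGen.cases_tail h with h1 | ⟨w, h1, e, he, ⟨h2, h3⟩ | ⟨h2, h3⟩⟩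
  · rw [h1]
    exact Or.inl rfl
  · right
    simp only [Set.mem_iUnion]
    refine ⟨e, ⟨he, ?_⟩, ?_⟩
    · rw [h2]; exact h1
    · rw [h3]; exact right_mem_segment _ _ _
  · right
    simp only [Set.mem_iUnion]
    refine ⟨e, ⟨he, ?_⟩, ?_⟩
    · rw [h2]; exact h
    · rw [h2]; exact left_mem_segment _ _ _

theorem reach_tgt {G : Set Edg} {v : Vtx} {e : Edg} (he : e ∈ G) (h : Reach G v (src e)) :
    Reach G v (tgt e) := Relation.ReflTransGen.tail h ⟨e, he, Or.inl ⟨rfl, rfl⟩⟩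

theorem seg_dist {δ : ℝ} (hδ : 0 < δ) (o : ℂ) (e : Edg) :
    dist (zp δ o (src e)) (zp δ o (tgt e)) = δ := by
  obtain ⟨x, y, _ | _⟩ := e
  · rw [tgt_false, Complex.dist_eq_re_im]
    simp only [src, zp]
    push_cast
    rw [show (o.re + δ * (x:ℝ) - (o.re + δ * x)) ^ 2 +
      (o.im + δ * (y:ℝ) - (o.im + δ * (y + 1))) ^ 2 = δ ^ 2 by ring]
    exact Real.sqrt_sq hδ.le
  · rw [tgt_true, Complex.dist_eq_re_im]
    simp only [src, zp]
    push_cast
    rw [show (o.re + δ * (x:ℝ) - (o.re + δ * (x + 1))) ^ 2 +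
      (o.im + δ * (y:ℝ) - (o.im + δ * y)) ^ 2 = δ ^ 2 by ring]
    exact Real.sqrt_sq hδ.le

/-- The distance to a point is maximal at the ends of a segment. -/
theorem seg_far {a b x p : ℂ} (hx : x ∈ segment ℝ a b) : dist x p ≤ max (dist a p) (dist b p) := by
  have h := (convexOn_dist p (convex_univ : Convex ℝ (Set.univ : Set ℂ))).le_max_of_mem_segment
    (Set.mem_univ a) (Set.mem_univ b) hx
  exact h

/-- a point of a body is not farther than a vertex -/
theorem body_far {δ : ℝ} {o : ℂ} {G : Set Edg} {v : Vtx} {x : ℂ} (hx : x ∈ body δ o G v) (p : ℂ) :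
    ∃ u, Reach G v u ∧ dist x p ≤ dist (zp δ o u) p := by
  rcases hx with hx | hx
  · rw [Set.mem_singleton_iff.1 hx]
    exact ⟨v, Relation.ReflTransGen.refl, le_rfl⟩
  · simp only [Set.mem_iUnion] at hx
    obtain ⟨e, ⟨he, h1⟩, h2⟩ := hx
    rcases le_max_iff.1 (seg_far (p := p) h2) with h3 | h3
    · exact ⟨_, h1, h3⟩
    · exact ⟨_, reach_tgt he h1, h3⟩

theorem body_near_vtx {δ : ℝ} (hδ : 0 < δ) {o : ℂ} {G : Set Edg} {v : Vtx} {x : ℂ}
    (hx : x ∈ body δ o G v) : ∃ u, Reach G v u ∧ dist x (zp δ o u) ≤ δ := by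
  rcases hx with hx | hx
  · rw [Set.mem_singleton_iff.1 hx]
    exact ⟨v, Relation.ReflTransGen.refl, by rw [dist_self]; exact hδ.le⟩
  · simp only [Set.mem_iUnion] at hx
    obtain ⟨e, ⟨he, h1⟩, h2⟩ := hx
    refine ⟨_, h1, (seg_far h2).trans (max_le ?_ ?_)⟩
    · rw [dist_self]; exact hδ.le
    · rw [dist_comm, seg_dist hδ]

/-- **(b)** The collection of all the clusters satisfies the rule. -/
theorem all_rule {s : Seq} {V : ℕ → Set Vtx}
    {C : ℕ → Finset Edg → NonemptyCompacts (NonemptyCompacts ℂ)} (hC : AllCl s V C) :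
    s.Rule (1 / 2) C := by
  intro n F hF K hK
  obtain ⟨v, -, hv⟩ := (hC n F hF K).1 hK
  have hδ := s.pos n
  refine ⟨{u | Reach (s.G n F) v u}, fun u hu w hw => hu.trans hw, fun u hu => ?_, fun u hu => ?_,
    fun z hz => ?_⟩
  · set p := zp (s.δ n) (s.o n) u with hp
    obtain ⟨x, hx, hmax⟩ := K.isCompact.exists_isMaxOn K.nonempty
      (f := fun x => dist x p) (by fun_prop)
    have hx' : x ∈ (K : Set ℂ) := hx
    rw [hv] at hx'
    obtain ⟨a, ha, hxa⟩ := body_far hx' p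
    refine ⟨a, (Reach.symm hu).trans ha, ?_⟩
    have h1 : Metric.diam (K : Set ℂ) ≤ 2 * dist x p := by
      refine Metric.diam_le_of_forall_dist_le (by positivity) fun y hy z hz => ?_
      have h2 : dist y p ≤ dist x p := hmax hy
      have h3 : dist z p ≤ dist x p := hmax hz
      have h4 := dist_triangle_right y z p
      linarith
    rw [dist_comm p]
    linarith
  · refine ⟨zp (s.δ n) (s.o n) u, ?_, by rw [dist_self]; exact hδ.le⟩
    show zp (s.δ n) (s.o n) u ∈ (K : Set ℂ)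
    rw [hv]
    exact mem_body hu
  · have hz' : z ∈ (K : Set ℂ) := hz
    rw [hv] at hz'
    exact body_near_vtx hδ hz'

theorem body_compact {δ : ℝ} {o : ℂ} {G : Set Edg} (hG : G.Finite) (v : Vtx) :
    IsCompact (body δ o G v) := by
  refine isCompact_singleton.union ((hG.subset fun e he => he.1).isCompact_biUnion fun e _ => ?_)
  rw [segment_eq_image]
  exact isCompact_Icc.image (by fun_prop)

open Classical in
/-- There is such a collection. -/
theorem all_exists {s : Seq} {V : ℕ → Set Vtx} (hV : ∀ n, (V n).Finite)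
    (hne : ∀ n, (V n).Nonempty) (hG : ∀ n, ∀ F ⊆ s.E n, (s.G n F).Finite) :
    ∃ C, AllCl s V C := by
  have key : ∀ n F, ∃ 𝒞 : NonemptyCompacts (NonemptyCompacts ℂ), F ⊆ s.E n →
      ∀ K : NonemptyCompacts ℂ, K ∈ 𝒞 ↔
        ∃ v ∈ V n, (K : Set ℂ) = body (s.δ n) (s.o n) (s.G n F) v := by
    intro n F
    by_cases hF : F ⊆ s.E n
    · set b : Vtx → NonemptyCompacts ℂ := fun v =>
        ⟨⟨body (s.δ n) (s.o n) (s.G n F) v, body_compact (hG n F hF) v⟩, ⟨_, Or.inl rfl⟩⟩ with hb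
      refine ⟨⟨⟨b '' V n, ((hV n).image _).isCompact⟩, (hne n).image _⟩, fun _ K => ?_⟩
      constructor
      · rintro ⟨v, hv, rfl⟩
        exact ⟨v, hv, rfl⟩
      · rintro ⟨v, hv, h⟩
        refine ⟨v, hv, ?_⟩
        apply NonemptyCompacts.ext
        rw [h]
        rfl
    · exact ⟨⟨⟨{⟨⟨{0}, isCompact_singleton⟩, ⟨0, rfl⟩⟩}, isCompact_singleton⟩, ⟨_, rfl⟩⟩,
        fun h => absurd h hF⟩
  choose C hC using key
  exact ⟨C, fun n F hF => hC n F hF⟩

end Run7.h165.CC
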