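import Pool.Agent.Run7.h561.CC.StmL
import Pool.Agent.Run7.h165.EC.Allt

/-! # CC, lower bound: the deterministic part -/

set_option autoImplicit false

namespace Run7.h165.CC

open Set Filter Topology Metric MeasureTheory TopologicalSpace Run7.h561.EC Run7.h561.CC
open scoped ENNReal NNReal

/-- the point at distance `l` in the direction `d` -/
noncomputable def go (x : ℂ) (d : ℤ × ℤ) (l : ℝ) : ℂ := ⟨x.re + l * d.1, x.im + l * d.2⟩

theorem start {K U : Set ℂ} (hK : IsClosed K) (hU : IsOpen U) {w z : ℂ}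
    (hz : z ∈ frontier (connectedComponentIn (U \ K) w)) (hzU : z ∈ U) {η : ℝ} (hη : 0 < η)
    (hball : ball z η ⊆ U) : ∃ x ∈ connectedComponentIn (U \ K) w, dist x z < η ∧
      ∃ d, Dir d ∧ ∃ l : ℝ, 0 < l ∧ l < η ∧ go x d l ∈ K := by
  obtain ⟨hzK, hzcl, -⟩ := Run7.h165.EC.frontier_comp hU hK hz hzU
  obtain ⟨x, hx, hxz⟩ := Metric.mem_closure_iff.1 hzcl η hη
  rw [dist_comm] at hxz
  set C := connectedComponentIn (U \ K) w with hC
  have hxK : x ∉ K := fun h => (connectedComponentIn_subset _ _ hx).2 h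
  have hre : |z.re - x.re| < η := by
    rw [abs_sub_comm]
    exact (Complex.abs_re_le_norm (x - z)).trans_lt (by rwa [← dist_eq_norm])
  have him : |z.im - x.im| < η := by
    rw [abs_sub_comm]
    exact (Complex.abs_im_le_norm (x - z)).trans_lt (by rwa [← dist_eq_norm])
  set c : ℂ := ⟨z.re, x.im⟩ with hc
  have hcz : dist c z < η := by
    rw [dist_eq_norm]
    have : c - z = ((x.im - z.im : ℝ) : ℂ) * Complex.I := by
      apply Complex.ext <;> simp [hc]
    rw [this, norm_mul, Complex.norm_I, mul_one, Complex.norm_real, Real.norm_eq_abs,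
      abs_sub_comm]
    exact him
  by_cases hhit : ∃ t : ℝ, 0 ≤ t ∧ t ≤ 1 ∧ (⟨x.re + t * (z.re - x.re), x.im⟩ : ℂ) ∈ K
  · obtain ⟨t, ht0, ht1, htK⟩ := hhit
    refine ⟨x, hx, hxz, ?_⟩
    rcases lt_trichotomy (z.re - x.re) 0 with h | h | h
    · refine ⟨(-1, 0), Or.inr (Or.inr (Or.inr rfl)), t * (-(z.re - x.re)), ?_, ?_, ?_⟩
      · rcases ht0.lt_or_eq with h0 | h0
        · exact mul_pos h0 (by linarith)
        · exfalso
          apply hxK
          rw [← h0] at htK
          convert htK using 1
          apply Complex.ext <;> simp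
      · rw [abs_of_neg h] at hre
        nlinarith
      · convert htK using 1
        unfold go
        apply Complex.ext
        · simp
          ring
        · simp
    · exfalso
      apply hxK
      rw [h] at htK
      convert htK using 1
      apply Complex.ext <;> simp
    · refine ⟨(1, 0), Or.inr (Or.inr (Or.inl rfl)), t * (z.re - x.re), ?_, ?_, ?_⟩
      · rcases ht0.lt_or_eq with h0 | h0
        · exact mul_pos h0 h
        · exfalso
          apply hxK
          rw [← h0] at htK
          convert htK using 1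
          apply Complex.ext <;> simp
      · rw [abs_of_pos h] at hre
        nlinarith
      · convert htK using 1
        unfold go
        apply Complex.ext
        · simp
        · simp
  · push Not at hhit
    have hcK : c ∉ K := by
      have := hhit 1 zero_le_one le_rfl
      convert this using 2
      apply Complex.ext <;> simp [hc]
    have hseg : segment ℝ x c ⊆ U \ K := by
      intro y hy
      refine ⟨hball ((convex_ball z η).segment_subset (mem_ball.2 hxz) (mem_ball.2 hcz) hy), ?_⟩
      obtain ⟨a, b, ha, hb, hab, rfl⟩ := hy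
      have := hhit b hb (by linarith)
      convert this using 2
      apply Complex.ext
      · simp [hc]
        have : a = 1 - b := by linarith
        rw [this]
        ring
      · simp [hc]
        have : a = 1 - b := by linarith
        rw [this]
        ring
    have hcC : c ∈ C := by
      rw [hC, connectedComponentIn_eq hx]
      exact (convex_segment x c).isPreconnected.subset_connectedComponentIn
        (left_mem_segment _ _ _) hseg (right_mem_segment _ _ _)
    refine ⟨c, hcC, hcz, ?_⟩
    have hne : z.im - x.im ≠ 0 := by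
      intro h
      apply hcK
      convert hzK using 1
      apply Complex.ext
      · rfl
      · show x.im = z.im
        linarith
    rcases lt_or_gt_of_ne hne with h | h
    · refine ⟨(0, -1), Or.inr (Or.inl rfl), -(z.im - x.im), by linarith, ?_, ?_⟩
      · rw [abs_of_neg h] at him
        exact him
      · convert hzK using 1
        unfold go
        apply Complex.ext
        · simp [hc]
        · simp [hc]
    · refine ⟨(0, 1), Or.inl rfl, z.im - x.im, h, ?_, ?_⟩
      · rw [abs_of_pos h] at him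
        exact him
      · convert hzK using 1
        unfold go
        apply Complex.ext
        · simp [hc]
        · simp [hc]

theorem wb_near {d : ℤ × ℤ} {w : ℂ} {s : ℝ} (hs : 0 ≤ s) (b : Bool) :
    |(wb d w s b).re - w.re| ≤ s ∧ |(wb d w s b).im - w.im| ≤ s := by
  unfold wb
  split_ifs with h1 h2 h2
  · simp only [sub_self, abs_zero, add_sub_cancel_left, abs_of_nonneg hs]
    exact ⟨hs, le_rfl⟩
  · simp only [sub_self, abs_zero, add_sub_cancel_left, abs_neg, abs_of_nonneg hs]
    exact ⟨hs, le_rfl⟩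
  · simp only [sub_self, abs_zero, add_sub_cancel_left, abs_of_nonneg hs]
    exact ⟨le_rfl, hs⟩
  · simp only [sub_self, abs_zero, add_sub_cancel_left, abs_neg, abs_of_nonneg hs]
    exact ⟨le_rfl, hs⟩

theorem tend_inv : Tendsto (fun j : ℕ => 1 / ((j : ℝ) + 1)) atTop (𝓝 0) :=
  tendsto_one_div_add_atTop_nhds_zero_nat

theorem ofReal_lim : Tendsto (fun m : ℕ => ENNReal.ofReal (4 / 3 - 1 / ((m : ℝ) + 1))) atTop
    (𝓝 (4 / 3)) := by
  have h := ENNReal.tendsto_ofReal ((tendsto_const_nhds (x := (4 / 3 : ℝ))).sub tend_inv)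
  rw [sub_zero] at h
  have e : ENNReal.ofReal (4 / 3) = 4 / 3 := by
    rw [ENNReal.ofReal_div_of_pos (by norm_num)]
    norm_num
  rwa [e] at h

/-- **DL** -/
theorem t_DL : S_DL := by
  intro c0 hc0 D K hD hnt U hU w z hz hzU hzD ρ hρ hdim
  set C := connectedComponentIn (U \ (K : Set ℂ)) w with hC
  have hKcl : IsClosed (K : Set ℂ) := K.isCompact.isClosed
  have hCo : IsOpen C := (hU.sdiff hKcl).connectedComponentIn
  obtain ⟨p, hp, q, hq, hpq⟩ := hnt
  obtain ⟨ε, hε, hεb⟩ := Metric.isOpen_iff.1 ((hU.inter hD).inter (isOpen_ball (x := z) (ε := ρ)))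
    z ⟨⟨hzU, hzD⟩, mem_ball_self hρ⟩
  -- `j`
  have ev1 : ∀ᶠ j : ℕ in atTop, ‖z‖ + 2 ≤ (j : ℝ) :=
    tendsto_natCast_atTop_atTop.eventually (eventually_ge_atTop _)
  have ev2 : ∀ᶠ j : ℕ in atTop, 1 / ((j : ℝ) + 1) < min (ε / 3) (dist p q) :=
    tend_inv.eventually (gt_mem_nhds (lt_min (by positivity) (dist_pos.2 hpq)))
  obtain ⟨j, hj1, hj2⟩ := (ev1.and ev2).exists
  have hj3 := hj2.trans_le (min_le_left _ _)
  have hj4 := hj2.trans_le (min_le_right _ _)
  have hj0 : (0 : ℝ) < 1 / ((j : ℝ) + 1) := by positivity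
  have hj5 : 1 / ((j : ℝ) + 1) ≤ 1 := by
    rw [div_le_one (by positivity)]
    have : (0 : ℝ) ≤ j := Nat.cast_nonneg _
    linarith
  -- `h`
  have ev3 : ∀ᶠ h : ℕ in atTop, 1 / ((h : ℝ) + 1) <
      min (1 / ((j : ℝ) + 1) / 20) (c0 / ((j : ℝ) + 1) / 20) :=
    tend_inv.eventually (gt_mem_nhds (lt_min (by positivity) (by positivity)))
  obtain ⟨h, hh⟩ := ev3.exists
  have hh1 := hh.trans_le (min_le_left _ _)
  have hh2 := hh.trans_le (min_le_right _ _)
  set H : ℝ := 1 / ((h : ℝ) + 1) with hH
  have hH0 : 0 < H := by positivity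
  -- `m`
  obtain ⟨m, hm⟩ := (ofReal_lim.eventually (lt_mem_nhds hdim)).exists
  refine ⟨j, h, m, by linarith, by linarith, ?_⟩
  obtain ⟨x, hx, hxz, d, hd, l, hl0, hl1, hlK⟩ := start hKcl hU hz hzU (η := H / 16)
    (by positivity) (fun y hy => (hεb ((ball_subset_ball (by linarith)) hy)).1.1)
  obtain ⟨e0, he0, heb⟩ := Metric.isOpen_iff.1 hCo x hx
  have hsk : Tendsto (fun k : ℕ => sk h k) atTop (𝓝 0) := by
    have h1 : (fun k : ℕ => sk h k) = fun k : ℕ => H / 6 * (1 / ((k : ℝ) + 1)) := by
      funext k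
      unfold sk
      rw [← hH]
      field_simp
    rw [h1]
    have := tend_inv.const_mul (H / 6)
    rwa [mul_zero] at this
  have hev := hsk.eventually (gt_mem_nhds (show (0 : ℝ) < min (min l H) e0 / 8 by positivity))
  obtain ⟨k0, hk0⟩ := eventually_atTop.1 hev
  refine ⟨k0, fun k hk => ?_⟩
  have hs := hk0 k hk
  have hs0 : 0 < sk h k := by unfold sk; positivity
  set s := sk h k with hsdef
  have m1 : min (min l H) e0 ≤ l := (min_le_left _ _).trans (min_le_left _ _)
  have m2 : min (min l H) e0 ≤ H := (min_le_left _ _).trans (min_le_right _ _)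
  have m3 : min (min l H) e0 ≤ e0 := min_le_right _ _
  set a : ℤ := ⌊4 * x.re / s⌋ with ha
  set b : ℤ := ⌊4 * x.im / s⌋ with hb
  have fl : ∀ y : ℝ, s / 4 * (⌊4 * y / s⌋ : ℝ) ≤ y ∧ y < s / 4 * (⌊4 * y / s⌋ : ℝ) + s / 4 := by
    intro y
    have h1 := Int.floor_le (4 * y / s)
    have h2 := Int.lt_floor_add_one (4 * y / s)
    rw [le_div_iff₀ hs0] at h1
    rw [div_lt_iff₀ hs0] at h2
    constructor <;> linarith
  obtain ⟨fa1, fa2⟩ := fl x.re
  obtain ⟨fb1, fb2⟩ := fl x.im
  rw [← ha] at fa1 fa2
  rw [← hb] at fb1 fb2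
  have hg : gp h k (a, b, d) = ⟨s / 4 * a, s / 4 * b⟩ := rfl
  set g : ℂ := gp h k (a, b, d) with hgdef
  have hgre : g.re = s / 4 * a := by rw [hg]
  have hgim : g.im = s / 4 * b := by rw [hg]
  have hsup : ∀ y : ℂ, |y.re - x.re| ≤ 9 / 4 * s → |y.im - x.im| ≤ 9 / 4 * s → y ∈ C := by
    intro y h1 h2
    apply heb
    rw [mem_ball]
    have := H984N.ML.dist_le_of h1 h2
    linarith
  have hgx : dist g x ≤ s / 4 + s / 4 := by
    apply H984N.ML.dist_le_of
    · rw [hgre, abs_le]; constructor <;> linarith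
    · rw [hgim, abs_le]; constructor <;> linarith
  have hgz : dist g z ≤ s / 2 + H / 16 := by
    have := dist_triangle g x z
    linarith
  have hgn : ‖g‖ ≤ j := by
    have h1 := dist_triangle g z 0
    rw [dist_zero_right, dist_zero_right] at h1
    linarith
  have hLj : g ∈ Lj D j := by
    refine ⟨hgn, fun y hy => ?_⟩
    refine (hεb ?_).1.2
    rw [mem_ball] at hy ⊢
    have := dist_triangle y g z
    linarith
  have hrange : ∀ t : ℤ, |s / 4 * (t : ℝ)| ≤ j →
      t ∈ Finset.Icc (-(⌈4 * (j : ℝ) / s⌉ : ℤ)) ⌈4 * (j : ℝ) / s⌉ := by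
    intro t ht
    rw [abs_mul, abs_of_pos (by positivity)] at ht
    have h1 : |(t : ℝ)| ≤ 4 * j / s := by
      rw [le_div_iff₀ hs0]
      linarith
    have h2 := Int.le_ceil (4 * (j : ℝ) / s)
    rw [abs_le] at h1
    rw [Finset.mem_Icc]
    constructor
    · have : ((-(⌈4 * (j : ℝ) / s⌉ : ℤ) : ℤ) : ℝ) ≤ t := by
        push_cast
        linarith [h1.1]
      exact_mod_cast this
    · have : (t : ℝ) ≤ (⌈4 * (j : ℝ) / s⌉ : ℤ) := by linarith [h1.2]
      exact_mod_cast this
  refine ⟨(a, b, d), ?_, ⟨?_, ?_, ?_⟩, ?_⟩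
  · classical
    unfold Ix
    rw [Finset.mem_filter, Finset.mem_product, Finset.mem_product]
    refine ⟨⟨hrange a ?_, hrange b ?_, ?_⟩, hLj⟩
    · rw [← hgre]
      exact (Complex.abs_re_le_norm g).trans hgn
    · rw [← hgim]
      exact (Complex.abs_im_le_norm g).trans hgn
    · rcases hd with rfl | rfl | rfl | rfl <;> simp
  · -- the small square
    rintro y hy ⟨h1, h2⟩
    have hyC : y ∈ C := by
      apply hsup
      · have h3 : y.re - x.re = (y.re - g.re) + (g.re - x.re) := by ring
        rw [h3]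
        refine (abs_add_le _ _).trans ?_
        have h4 : |g.re - x.re| ≤ s / 4 := by
          rw [hgre, abs_le]; constructor <;> linarith
        linarith
      · have h3 : y.im - x.im = (y.im - g.im) + (g.im - x.im) := by ring
        rw [h3]
        refine (abs_add_le _ _).trans ?_
        have h4 : |g.im - x.im| ≤ s / 4 := by
          rw [hgim, abs_le]; constructor <;> linarith
        linarith
    exact (connectedComponentIn_subset _ _ hyC).2 hy
  · -- the hit point
    refine ⟨go x d l, hlK, ?_⟩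
    have hl2 : H / 16 + s / 4 < H / 4 := by linarith
    unfold aloR acrR
    simp only [go]
    change 0 < (x.re + l * (d.1 : ℝ) - g.re) * (d.1 : ℝ) + (x.im + l * (d.2 : ℝ) - g.im) * (d.2 : ℝ) ∧
      (x.re + l * (d.1 : ℝ) - g.re) * (d.1 : ℝ) + (x.im + l * (d.2 : ℝ) - g.im) * (d.2 : ℝ) < H / 4 ∧
      |(x.re + l * (d.1 : ℝ) - g.re) * (d.2 : ℝ) - (x.im + l * (d.2 : ℝ) - g.im) * (d.1 : ℝ)| < s / 2
    rw [hgre, hgim]
    rcases hd with rfl | rfl | rfl | rfl
    · refine ⟨?_, ?_, ?_⟩ <;> push_cast
      · linarith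
      · linarith
      · rw [abs_lt]; constructor <;> linarith
    · refine ⟨?_, ?_, ?_⟩ <;> push_cast
      · linarith
      · linarith
      · rw [abs_lt]; constructor <;> linarith
    · refine ⟨?_, ?_, ?_⟩ <;> push_cast
      · linarith
      · linarith
      · rw [abs_lt]; constructor <;> linarith
    · refine ⟨?_, ?_, ?_⟩ <;> push_cast
      · linarith
      · linarith
      · rw [abs_lt]; constructor <;> linarith
  · exact ⟨p, hp, q, hq, hj4⟩
  · -- the targets
    intro b'
    rw [not_le]
    refine lt_of_le_of_lt (dimH_mono ?_) hm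
    obtain ⟨n1, n2⟩ := wb_near (d := d) (w := g) hs0.le b'
    set v : ℂ := wb d g s b' with hv
    have hvC : v ∈ C := by
      apply hsup
      · have h3 : v.re - x.re = (v.re - g.re) + (g.re - x.re) := by ring
        rw [h3]
        refine (abs_add_le _ _).trans ?_
        have h4 : |g.re - x.re| ≤ s / 4 := by
          rw [hgre, abs_le]; constructor <;> linarith
        linarith
      · have h3 : v.im - x.im = (v.im - g.im) + (g.im - x.im) := by ring
        rw [h3]
        refine (abs_add_le _ _).trans ?_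
        have h4 : |g.im - x.im| ≤ s / 4 := by
          rw [hgim, abs_le]; constructor <;> linarith
        linarith
    have hvz : dist v z ≤ 3 * s + H / 16 := by
      have h5 := H984N.ML.dist_le_of n1 n2
      have := dist_triangle v g z
      linarith
    have hSq : ∀ y ∈ Sq (4 * H) v, dist y v ≤ 8 * H := by
      rintro y ⟨h1, h2⟩
      have := H984N.ML.dist_le_of h1.le h2.le
      linarith
    have hin : ∀ y, dist y v ≤ 8 * H → y ∈ U ∩ D ∩ ball z ρ := by
      intro y hy
      apply hεb
      rw [mem_ball]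
      have := dist_triangle y v z
      linarith
    have hsub : connectedComponentIn (Sq (4 * H) v \ (K : Set ℂ)) v ⊆ C := by
      rw [hC, connectedComponentIn_eq hvC]
      refine isPreconnected_connectedComponentIn.subset_connectedComponentIn ?_ ?_
      · apply mem_connectedComponentIn
        refine ⟨?_, (connectedComponentIn_subset _ _ hvC).2⟩
        unfold Sq
        simp only [Set.mem_ofPred_eq, sub_self, abs_zero]
        constructor <;> positivity
      · intro y hy
        have h1 := connectedComponentIn_subset _ _ hy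
        exact ⟨(hin y (hSq y h1.1)).1.1, h1.2⟩
    rintro y ⟨hyK, hycl⟩
    have hyd : dist y v ≤ 8 * H := by
      have h1 : closure (connectedComponentIn (Sq (4 * H) v \ (K : Set ℂ)) v) ⊆
          closedBall v (8 * H) := by
        apply closure_minimal _ isClosed_closedBall
        intro y hy
        exact hSq y (connectedComponentIn_subset _ _ hy).1
      exact h1 hycl
    refine ⟨⟨closure_mono hsub hycl, ?_⟩, hin y hyd⟩
    rw [hCo.interior_eq]
    intro hyC
    exact (connectedComponentIn_subset _ _ hyC).2 hyK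

end Run7.h165.CC
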