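import Pool.Agent.Run7.h165.CC.Dl

/-! # CC, lower bound: from the probability of one scale -/

set_option autoImplicit false

namespace Run7.h165.CC

open Set Filter Topology Metric MeasureTheory TopologicalSpace Run7.h561.EC Run7.h561.CC
open scoped ENNReal NNReal

theorem Ix_card (D : Set ℂ) (j h k : ℕ) :
    ((Ix D j h k).card : ℝ) ≤ 4 * (48 * j * (h + 1) + 1) ^ 2 * ((k : ℝ) + 1) ^ 2 := by
  classical
  set M : ℤ := 24 * j * (h + 1) * (k + 1) with hM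
  have hceil : (⌈4 * (j : ℝ) / sk h k⌉ : ℤ) = M := by
    have : 4 * (j : ℝ) / sk h k = (M : ℝ) := by
      unfold sk
      rw [hM]
      push_cast
      field_simp
      ring
    rw [this, Int.ceil_intCast]
  have hM0 : 0 ≤ M := by positivity
  have hcard : (Finset.Icc (-M) M).card = 2 * M.toNat + 1 := by
    rw [Int.card_Icc]
    omega
  have h1 : (Ix D j h k).card ≤ (2 * M.toNat + 1) * ((2 * M.toNat + 1) * 4) := by
    unfold Ix
    refine (Finset.card_filter_le _ _).trans ?_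
    rw [hceil, Finset.card_product, Finset.card_product, hcard]
    gcongr
    exact Finset.card_le_four
  have h2 : ((M.toNat : ℕ) : ℝ) = 24 * j * (h + 1) * (k + 1) := by
    have : ((M.toNat : ℕ) : ℤ) = M := Int.toNat_of_nonneg hM0
    have h3 : (((M.toNat : ℕ) : ℤ) : ℝ) = (M : ℝ) := by rw [this]
    rw [Int.cast_natCast] at h3
    rw [h3, hM]
    push_cast
    ring
  have h4 : ((Ix D j h k).card : ℝ) ≤
      (2 * (24 * j * (h + 1) * (k + 1)) + 1) * ((2 * (24 * j * (h + 1) * (k + 1)) + 1) * 4) := by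
    rw [← h2]
    exact_mod_cast h1
  refine h4.trans ?_
  have h5 : 2 * (24 * (j : ℝ) * (h + 1) * (k + 1)) + 1 ≤ (48 * j * (h + 1) + 1) * (k + 1) := by
    have : (0 : ℝ) ≤ k := Nat.cast_nonneg _
    nlinarith
  have h6 : (0 : ℝ) ≤ 2 * (24 * (j : ℝ) * (h + 1) * (k + 1)) + 1 := by positivity
  nlinarith [mul_le_mul h5 h5 h6 (by positivity)]

theorem card_lim (D : Set ℂ) (j h : ℕ) :
    Tendsto (fun k : ℕ => ENNReal.ofReal ((Ix D j h k).card * (1 / 2) ^ (k + 1))) atTop (𝓝 0) := by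
  have h1 := tendsto_pow_const_mul_const_pow_of_lt_one 2 (r := (1 / 2 : ℝ)) (by norm_num)
    (by norm_num)
  have h2 := (h1.comp (tendsto_add_atTop_nat 1)).const_mul
    (4 * (48 * (j : ℝ) * (h + 1) + 1) ^ 2)
  rw [mul_zero] at h2
  have h3 := ENNReal.tendsto_ofReal h2
  rw [ENNReal.ofReal_zero] at h3
  refine tendsto_of_tendsto_of_tendsto_of_le_of_le tendsto_const_nhds h3 (fun k => zero_le)
    (fun k => ENNReal.ofReal_le_ofReal ?_)
  have h4 := Ix_card D j h k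
  have h5 : (0 : ℝ) ≤ (1 / 2) ^ (k + 1) := by positivity
  have h6 := mul_le_mul_of_nonneg_right h4 h5
  refine h6.trans (le_of_eq ?_)
  simp only [Function.comp]
  push_cast
  ring

/-- **LOW** -/
theorem t_LOW (hbad : S_BAD) : S_LOW := by
  intro s D hD hag c0 hc0 C hC μ hμ
  have key : ∀ᵐ 𝒞 : NonemptyCompacts (NonemptyCompacts ℂ)
      ∂(μ : Measure (NonemptyCompacts (NonemptyCompacts ℂ))), ∀ j h m : ℕ,
      20 * (1 / ((h : ℝ) + 1)) ≤ 1 / ((j : ℝ) + 1) →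
      20 * (1 / ((h : ℝ) + 1)) ≤ c0 / ((j : ℝ) + 1) →
      ∀ K ∈ 𝒞, ∀ k0 : ℕ, ¬ ∀ k : ℕ, k0 ≤ k → ∃ i ∈ Ix D j h k, K ∈ Ev j h k i ∧
        ∀ b, ¬ ENNReal.ofReal (4 / 3 - 1 / ((m : ℝ) + 1)) ≤ dimH (Tg h k i b K) := by
    refine ae_all_iff.2 fun j => ae_all_iff.2 fun h => ae_all_iff.2 fun m => ?_
    by_cases hc : 20 * (1 / ((h : ℝ) + 1)) ≤ 1 / ((j : ℝ) + 1) ∧
        20 * (1 / ((h : ℝ) + 1)) ≤ c0 / ((j : ℝ) + 1)
    swap
    · exact Eventually.of_forall fun 𝒞 h1 h2 => absurd ⟨h1, h2⟩ hc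
    obtain ⟨c1, c2⟩ := hc
    have h0 : ∀ k0 : ℕ, (μ : Measure (NonemptyCompacts (NonemptyCompacts ℂ)))
        {𝒞 | ∃ K ∈ 𝒞, ∀ k : ℕ, k0 ≤ k → ∃ i ∈ Ix D j h k, K ∈ Ev j h k i ∧
          ∀ b, ¬ ENNReal.ofReal (4 / 3 - 1 / ((m : ℝ) + 1)) ≤ dimH (Tg h k i b K)} = 0 := by
      intro k0
      rw [← nonpos_iff_eq_zero]
      refine ge_of_tendsto (card_lim D j h) ?_
      filter_upwards [eventually_ge_atTop k0] with k hk
      refine (measure_mono ?_).trans (hbad s D hD hag c0 hc0 C hC μ hμ j h m k c1 c2)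
      rintro 𝒞 ⟨K, hK, hall⟩
      exact ⟨K, hK, hall k hk⟩
    have h1 : ∀ᵐ 𝒞 : NonemptyCompacts (NonemptyCompacts ℂ)
      ∂(μ : Measure (NonemptyCompacts (NonemptyCompacts ℂ))), ∀ k0 : ℕ,
        ¬ ∃ K ∈ 𝒞, ∀ k : ℕ, k0 ≤ k → ∃ i ∈ Ix D j h k, K ∈ Ev j h k i ∧
          ∀ b, ¬ ENNReal.ofReal (4 / 3 - 1 / ((m : ℝ) + 1)) ≤ dimH (Tg h k i b K) := by
      refine ae_all_iff.2 fun k0 => ?_
      rw [ae_iff]
      simpa only [not_not] using h0 k0
    filter_upwards [h1] with 𝒞 h2 _ _ K hK k0 hall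
    exact h2 k0 ⟨K, hK, hall⟩
  filter_upwards [key] with 𝒞 h K hK hnt U hU w z hz hzU hzD ρ hρ
  by_contra hcon
  rw [not_le] at hcon
  obtain ⟨j, h', m, e1, e2, k0, hall⟩ := t_DL c0 hc0 D K hD hnt U hU w z hz hzU hzD ρ hρ hcon
  exact h j h' m e1 e2 K hK k0 hall

end Run7.h165.CC
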