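import Pool.Agent.Run7.h165.EC.Accl
import Pool.Agent.Run7.h165.EC.Hol1

/-! # Accessible points of the limits of unions of clusters: deterministic part -/

set_option autoImplicit false

namespace Run7.h165.CC

open H974 H973 H12S Finset H389NS H984P H984N H342P H342L H342T H443B
open MeasureTheory Filter Topology Pool.Agent.W92.DP Pool.Agent.W822.PD Pool.Agent.W462.DPL
open Pool.Agent.W978.PDUL Pool.Agent.TH990.FU Run7.h165.EC
open Pool.Agent.W424.OD Pool.Agent.W571.DPad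

/-- `K` has two points at distance more than `ε`. -/
def Wide (ε : ℝ) (K : Set ℂ) : Prop := ∃ a ∈ K, ∃ b ∈ K, ε < dist a b

theorem meet_front {T W : Set ℂ} (hT : IsPreconnected T) (hW : IsOpen W) {a b : ℂ}
    (ha : a ∈ T) (haW : a ∈ W) (hb : b ∈ T) (hbW : b ∉ W) : ∃ x ∈ T, x ∈ frontier W := by
  by_contra hcon
  push Not at hcon
  apply hbW
  refine IsPreconnected.subset_left_of_subset_union (v := (closure W)ᶜ) hW
    isClosed_closure.isOpen_compl ?_ ?_ ⟨a, ha, haW⟩ hT hb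
  · rw [Set.disjoint_left]
    intro z hz hz2
    exact hz2 (subset_closure hz)
  · intro z hz
    by_cases h : z ∈ W
    · exact Or.inl h
    right
    intro h2
    exact hcon z hz ⟨h2, by rwa [hW.interior_eq]⟩

theorem compl_conn (z : ℂ) {ρ : ℝ} (hρ : 0 ≤ ρ) : IsPreconnected {w : ℂ | ρ < dist w z} := by
  have h : {w : ℂ | ρ < dist w z} =
      (fun p : ℝ × ℝ => z + p.1 * Complex.exp (p.2 * Complex.I)) '' (Set.Ioi ρ ×ˢ Set.univ) := by
    ext w
    constructor
    · intro hw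
      refine ⟨(‖w - z‖, (w - z).arg), ⟨?_, trivial⟩, ?_⟩
      · show ρ < ‖w - z‖
        rw [← dist_eq_norm]
        exact hw
      · show z + ((‖w - z‖ : ℝ) : ℂ) * Complex.exp (((w - z).arg : ℂ) * Complex.I) = w
        rw [Complex.norm_mul_exp_arg_mul_I]
        ring
    · rintro ⟨⟨a, b⟩, ⟨ha, -⟩, rfl⟩
      have ha' : ρ < a := ha
      show ρ < dist (z + (a : ℂ) * Complex.exp ((b : ℂ) * Complex.I)) z
      rw [dist_eq_norm, add_sub_cancel_left, norm_mul, Complex.norm_exp_ofReal_mul_I, mul_one,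
        Complex.norm_real, Real.norm_eq_abs, abs_of_pos (by linarith)]
      exact ha'
  rw [h]
  apply IsPreconnected.image
  · exact isPreconnected_Ioi.prod isPreconnected_univ
  · fun_prop

/-- A cluster which is not contained in a disc has a point far from the centre. -/
theorem wide_far {K : Set ℂ} {d : ℝ} (h : Wide d K) (z : ℂ) : ∃ p ∈ K, d / 2 < dist p z := by
  obtain ⟨a, ha, b, hb, hab⟩ := h
  by_contra hcon
  push Not at hcon
  have h1 := hcon a ha
  have h2 := hcon b hb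
  have h3 := dist_triangle_right a b z
  linarith

/-- **the deterministic part for the clusters** -/
theorem detC {z : ℂ} {r d ζ : ℝ} {n : ℕ} (hn : 0 < n) (hδr : 1 / (n : ℝ) ≤ r)
    (hd : 256 * r ≤ d) (hζ : 8 * (1 / (n : ℝ)) ≤ ζ) {G : Finset Plain.Edge} {v : ℤ × ℤ}
    (hbig : Wide d (body n G v)) {q : ℂ} (hq : q ∈ body n G v) (hqz : dist q z < r)
    {g : C(unitInterval, ℂ)} (hg0 : dist (g 0) z < r) (hg1 : d / 2 < dist (g 1) z)
    (hg : ∀ p ∈ body n G v, ∀ t, ζ < dist (g t) p) :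
    A3v (ctc (1 / n) z) (⌈r / (1 / (n : ℝ))⌉₊ + 3 + 2) (⌊d / (8 * (1 / (n : ℝ)))⌋₊ - 2) ↑G ∨
      A3v (ctc (1 / n) z) (⌈r / (1 / (n : ℝ))⌉₊ + 3 + 2) (⌊d / (8 * (1 / (n : ℝ)))⌋₊ - 2)
        (dl '' (↑G : Set Edg)ᶜ) := by
  have hδ : (0:ℝ) < 1 / n := by positivity
  have hr : 0 < r := hδ.trans_le hδr
  have hd0 : 0 < d := by linarith
  have hζ0 : 0 < ζ := by linarith
  have hgt : ∀ t, g t ∉ body n G v := fun t h => by
    have := hg _ h t
    rw [dist_self] at this
    linarith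
  set W := connectedComponentIn (body n G v)ᶜ (g 0) with hW
  have hWo : IsOpen W := (CPT_isOpen_compl n G v).connectedComponentIn
  have hg0W : g 0 ∈ W := mem_connectedComponentIn (hgt 0)
  have hg1W : g 1 ∈ W := by
    have h1 : IsPreconnected (Set.range g) := isPreconnected_range g.continuous
    exact h1.subset_connectedComponentIn ⟨0, rfl⟩ (by rintro _ ⟨t, rfl⟩; exact hgt t) ⟨1, rfl⟩
  have hbW : ∀ p ∈ body n G v, p ∉ W := fun p hp h => connectedComponentIn_subset _ _ h hp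
  obtain ⟨x, hx1, hx2⟩ := meet_front (convex_ball z r).isPreconnected hWo
    (Metric.mem_ball.2 hg0) hg0W (Metric.mem_ball.2 hqz) (hbW _ hq)
  obtain ⟨p, hp, hpz⟩ := wide_far hbig z
  obtain ⟨x', hx1', hx2'⟩ := meet_front (compl_conn z (by positivity : 0 ≤ d / 2)) hWo
    (show g 1 ∈ {w : ℂ | d / 2 < dist w z} from hg1) hg1W hpz (hbW _ hp)
  obtain ⟨σ, a1, a2, a3⟩ := hol_sup hn (hgt 0) hx2
  obtain ⟨τ, b1, b2, b3⟩ := hol_sup hn (hgt 0) hx2'
  obtain ⟨s, hs⟩ := orb_one a1 b1 (a2.trans b2.symm)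
  obtain ⟨N, hN, hper⟩ := P17.periodic G σ
  have hseg : ∀ (τ : St) (y : ℂ), y ∈ segment ℝ (pt n τ.1) (pt n (nxt (↑G) τ).1) →
      dist y (pt n τ.1) ≤ 1 / (n : ℝ) := by
    intro τ y hy
    have h1 := pt_step' hn (↑G) τ 0
    rw [orb_succ] at h1
    have h2 := (convex_closedBall (pt n τ.1) (1 / (n : ℝ))).segment_subset
      (Metric.mem_closedBall_self hδ.le)
      (by rw [Metric.mem_closedBall, dist_comm]; exact h1) hy
    exact Metric.mem_closedBall.1 h2
  have hmain := det_gen (o := 0) hδ hδr hd (C := (↑G : Set Edg))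
    (A := {τ | ∃ t, orb (↑G) σ t = τ}) (orb_inv hN hper) (Metric.mem_ball.1 hx1) hx1'
    (g := g) hg0 hg1.le ?_ (σ := σ) (τ := τ) ⟨0, rfl⟩ ?_ ?_ ?_ ?_
  · rwa [vz_ctc] at hmain
  · rintro t u hu q ⟨t0, ht0⟩
    have h4 := hu.dist hδ
    have hcl : (orb (↑G) σ t0).1 ∈ Plain.cluster G v := by
      rw [Plain.mem_cluster] at a1 ⊢
      exact a1.trans (pb_reach (↑G) σ t0)
    rw [ht0] at hcl
    have h7 := hg _ (body_pt (n := n) hcl) t
    rw [zp_pt] at h4
    have h8 : dist (g t) (pt n u) ≤ 2 * 3 * (1 / (n : ℝ)) := h4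
    have h9 : ζ < dist (g t) (pt n u) := h7
    linarith
  · rw [zp_pt]
    exact (hseg σ x a3).trans (by linarith)
  · rw [zp_pt]
    exact (hseg τ x' b3).trans (by linarith)
  · rw [← hs]
    exact pb_reach _ _ _
  · rw [← hs]
    exact (reach_dl (F := ((↑G : Set Edg))ᶜ)).2 (pb_dreach (↑G : Set Edg) σ s)

end Run7.h165.CC
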