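import Pool.Agent.Run7.h165.CC.Up1
import Pool.Agent.TH990.FU.CovF
import Pool.Agent.Run7.h165.EC.Hol2

/-! # Accessible points of the limits of unions of clusters: probability bound -/

set_option autoImplicit false

namespace Run7.h165.CC

open H974 H973 H12S Finset H389NS H984P H984N H342P H342L H342T H443B
open MeasureTheory Filter Topology Pool.Agent.W92.DP Pool.Agent.W822.PD Pool.Agent.W462.DPL
open Pool.Agent.W978.PDUL Pool.Agent.TH990.FU Run7.h165.EC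
open Pool.Agent.W424.OD Pool.Agent.W571.DPad TopologicalSpace
open scoped ENNReal NNReal

theorem blk_mem {c : ℤ × ℤ} {k : ℕ} {e : Edg} (he : e ∈ blk c k) :
    BX c k (src e) ∧ BX c k (tgt e) := by
  obtain ⟨x, y, _ | _⟩ := e
  · unfold H12S.blk at he
    simp only [mem_RE_false] at he
    unfold Pool.Agent.W424.OD.BX inR
    rw [tgt_false]
    simp only [src]
    omega
  · unfold H12S.blk at he
    simp only [mem_RE_true] at he
    unfold Pool.Agent.W424.OD.BX inR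
    rw [tgt_true]
    simp only [src]
    omega

theorem blk_mono1 {c : ℤ × ℤ} (k : ℕ) : H12S.blk c k ⊆ H12S.blk c (k + 1) := by
  apply RE_subset <;> push_cast <;> omega

theorem A3v_congr' {c : ℤ × ℤ} {d k : ℕ} {F G : Set Edg}
    (h : ∀ e ∈ blk c (k + 1), (e ∈ F ↔ e ∈ G)) : A3v c d k F ↔ A3v c d k G := by
  apply A3v_congr
  ext e
  simp only [Set.mem_inter_iff, Finset.mem_coe]
  constructor
  · rintro ⟨h1, h2⟩
    exact ⟨(h e (blk_mono1 k h2)).1 h1, h2⟩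
  · rintro ⟨h1, h2⟩
    exact ⟨(h e (blk_mono1 k h2)).2 h1, h2⟩

theorem A3v_congr_dual {c : ℤ × ℤ} {d k : ℕ} {F G : Set Edg}
    (h : ∀ e ∈ blk c (k + 1), (e ∈ F ↔ e ∈ G)) :
    A3v c d k (dl '' Fᶜ) ↔ A3v c d k (dl '' Gᶜ) := by
  apply A3v_congr
  ext e
  simp only [Set.mem_inter_iff, Finset.mem_coe, Set.mem_image, Set.mem_compl_iff]
  constructor
  · rintro ⟨⟨g, hg, rfl⟩, he⟩
    have := dls_mem he
    rw [Equiv.symm_apply_apply] at this
    exact ⟨⟨g, fun hc => hg ((h g this).2 hc), rfl⟩, he⟩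
  · rintro ⟨⟨g, hg, rfl⟩, he⟩
    have := dls_mem he
    rw [Equiv.symm_apply_apply] at this
    exact ⟨⟨g, fun hc => hg ((h g this).1 hc), rfl⟩, he⟩

/-- `K` visits the disc `B(z, r)`, and some path from `B(z, r)` to distance more than `ρ` from `z`
keeps a distance larger than `ζ` from `K`. -/
def EvC (z : ℂ) (r ρ ζ : ℝ) : Set (NonemptyCompacts ℂ) :=
  {K | (∃ q ∈ K, dist q z < r) ∧ ∃ g : C(unitInterval, ℂ), dist (g 0) z < r ∧
    ρ < dist (g 1) z ∧ ∃ ζ' : ℝ, ζ < ζ' ∧ ∀ p ∈ K, ∀ t, ζ' ≤ dist (g t) p}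

theorem EvC_open (z : ℂ) (r ρ ζ : ℝ) : IsOpen (EvC z r ρ ζ) := by
  rw [Metric.isOpen_iff]
  rintro K ⟨⟨q, hq, hqz⟩, g, hg0, hg1, ζ', hζ, hg⟩
  refine ⟨min (r - dist q z) ((ζ' - ζ) / 2), lt_min (by linarith) (by linarith), ?_⟩
  intro K' hK'
  rw [Metric.mem_ball] at hK'
  have h1 := hK'.trans_le (min_le_left _ _)
  have h2 := hK'.trans_le (min_le_right _ _)
  refine ⟨?_, g, hg0, hg1, (ζ + ζ') / 2, by linarith, ?_⟩
  · obtain ⟨q', hq', hd⟩ := nc_near (by rwa [dist_comm] : dist K K' < r - dist q z) q hq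
    refine ⟨q', hq', ?_⟩
    have := dist_triangle_left q' z q
    linarith
  · intro p hp t
    obtain ⟨p', hp', hd⟩ := nc_near h2 p hp
    have h3 := hg p' hp' t
    have h4 := dist_triangle (g t) p p'
    linarith

theorem EvC_anti {z : ℂ} {r ρ ζ ζ' : ℝ} (h : ζ ≤ ζ') : EvC z r ρ ζ' ⊆ EvC z r ρ ζ := by
  rintro K ⟨h1, g, h2, h3, ζ'', h4, h5⟩
  exact ⟨h1, g, h2, h3, ζ'', h.trans_lt h4, h5⟩

/-- the event without a bound of the distance -/
def EvU (z : ℂ) (r ρ : ℝ) : Set (NonemptyCompacts ℂ) := ⋃ j : ℕ, EvC z r ρ (1 / ((j:ℝ) + 1))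

theorem EvU_open (z : ℂ) (r ρ : ℝ) : IsOpen (EvU z r ρ) :=
  isOpen_iUnion fun _ => EvC_open _ _ _ _

/-- `G` agrees with `F` on the edges near the disc with centre `z` and radius `ρ`. -/
def AgrOn (n : ℕ) (S : Finset Edg) (G : Finset Edg → Finset Edg) (C : Set ℂ) : Prop :=
  ∀ e : Edg, pt n (src e) ∈ C → pt n (tgt e) ∈ C →
    e ∈ S ∧ ∀ F ⊆ S, (e ∈ G F ↔ e ∈ F)

/-- `X` is a union of clusters of `G` of diameter larger than `r0`. -/
def UniC (n : ℕ) (r0 : ℝ) (G : Finset Edg) (X : Set ℂ) : Prop :=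
  ∀ q ∈ X, ∃ v : ℤ × ℤ, q ∈ body n G v ∧ body n G v ⊆ X ∧ Wide r0 (body n G v)

/-- the probability bound -/
theorem probC (hU : U3) : ∃ C : ℝ, 1 ≤ C ∧ ∀ (z : ℂ) (r d ζ : ℝ) (n : ℕ) (S : Finset Edg)
    (G : Finset Edg → Finset Edg) (P : Finset Edg → Prop), 0 < r → 0 < d →
      AgrOn n S G (Metric.closedBall z (d / 2)) →
      (∀ F ⊆ S, P F → ∃ (v : ℤ × ℤ) (q : ℂ), q ∈ body n (G F) v ∧ dist q z < r ∧
        Wide d (body n (G F) v) ∧ ∃ g : C(unitInterval, ℂ), dist (g 0) z < r ∧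
          d / 2 < dist (g 1) z ∧ ∀ p ∈ body n (G F) v, ∀ t, ζ < dist (g t) p) →
      0 < n → 1 / (n : ℝ) ≤ r → 8 * (1 / (n : ℝ)) ≤ ζ →
        PQ (1/2) S P ≤ C * (r / d) ^ (2/3 : ℝ) := by
  obtain ⟨Cd, hCd, hD'⟩ := u3d hU
  obtain ⟨Ca, hCa, hA'⟩ := hU
  refine ⟨(Ca + Cd + 1) * 256 ^ (2/3 : ℝ), ?_, ?_⟩
  · have h1 : (1:ℝ) ≤ 256 ^ (2/3 : ℝ) := Real.one_le_rpow (by norm_num) (by norm_num)
    nlinarith
  intro z r d ζ n S G P hr hd0 hagr hX hn hδr hζ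
  have hδ : (0:ℝ) < 1 / n := by positivity
  have hq : 0 < r / d := by positivity
  have hRHS : (Ca + Cd + 1) * 256 ^ (2/3 : ℝ) * (r / d) ^ (2/3 : ℝ) =
      (Ca + Cd + 1) * (256 * (r / d)) ^ (2/3 : ℝ) := by
    rw [Real.mul_rpow (by norm_num) hq.le]
    ring
  rw [hRHS]
  by_cases h256 : 256 * r ≤ d
  · obtain ⟨s1, s2, s3, s4⟩ := sizes hδ hδr h256
    set m : ℕ := ⌊d / (8 * (1 / (n : ℝ)))⌋₊ - 2 with hm
    -- the edges of the block are near `z`
    have hgeo : ∀ e ∈ blk (ctc (1 / n) z) (m + 1),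
        pt n (src e) ∈ Metric.closedBall z (d / 2) ∧ pt n (tgt e) ∈ Metric.closedBall z (d / 2) := by
      have hk : ((m + 1 : ℕ) : ℝ) ≤ d / (8 * (1 / (n : ℝ))) := by
        have h6 : (⌊d / (8 * (1 / (n : ℝ)))⌋₊ : ℝ) ≤ d / (8 * (1 / (n : ℝ))) :=
          Nat.floor_le (by positivity)
        have h7 : ((m + 1 : ℕ) : ℝ) ≤ (⌊d / (8 * (1 / (n : ℝ)))⌋₊ : ℝ) := by
          have : m + 1 ≤ ⌊d / (8 * (1 / (n : ℝ)))⌋₊ := by omega
          exact_mod_cast this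
        linarith
      have h6 : 2 * (1 / (n : ℝ)) * ((m + 1 : ℕ) : ℝ) ≤ d / 4 := by
        calc 2 * (1 / (n : ℝ)) * ((m + 1 : ℕ) : ℝ) ≤ 2 * (1 / (n : ℝ)) * (d / (8 * (1 / (n : ℝ)))) :=
              mul_le_mul_of_nonneg_left hk (by positivity)
          _ = d / 4 := by
              field_simp
              norm_num
      have key : ∀ w : Vtx, BX (ctc (1 / n) z) (m + 1) w → dist (pt n w) z ≤ d / 2 := by
        intro w hw
        rw [← vz_ctc] at hw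
        have h8 := of_box hδ hw
        rw [zp_pt] at h8
        have h9 : (256:ℝ) * (1 / (n : ℝ)) ≤ d := by
          have := mul_le_mul_of_nonneg_left hδr (by norm_num : (0:ℝ) ≤ 256)
          linarith
        refine h8.trans ?_
        linarith
      intro e he
      obtain ⟨h1, h2⟩ := blk_mem he
      exact ⟨key _ h1, key _ h2⟩
    have hblkS : blk (ctc (1 / n) z) (m + 1) ⊆ S := by
      intro e he
      obtain ⟨h1, h2⟩ := hgeo e he
      exact (hagr e h1 h2).1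
    have h1 := hA' (ctc (1 / n) z) (⌈r / (1 / (n : ℝ))⌉₊ + 3 + 2) m (by omega) s2 S
      ((blk_mono1 m).trans hblkS)
    have h2 := hD' (ctc (1 / n) z) (⌈r / (1 / (n : ℝ))⌉₊ + 3 + 2) m (by omega) s2 S hblkS
    have hmono : PQ (1/2) S P ≤
        PQ (1/2) S (fun F =>
          A3v (ctc (1 / n) z) (⌈r / (1 / (n : ℝ))⌉₊ + 3 + 2) m ↑F ∨
          A3v (ctc (1 / n) z) (⌈r / (1 / (n : ℝ))⌉₊ + 3 + 2) m (dl '' (↑F : Set Edg)ᶜ)) := by
      refine Pr_mono okh ?_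
      intro F hF hE
      obtain ⟨v, q, hqv, hqz, hwide, g, hg0, hg1, hg⟩ := hX F hF hE
      have hdet := detC hn hδr h256 hζ hwide hqv hqz hg0 hg1 hg
      have hcong : ∀ e ∈ blk (ctc (1 / n) z) (m + 1),
          (e ∈ (↑(G F) : Set Edg) ↔ e ∈ (↑F : Set Edg)) := by
        intro e he
        obtain ⟨h1, h2⟩ := hgeo e he
        rw [Finset.mem_coe, Finset.mem_coe]
        exact (hagr e h1 h2).2 F hF
      rcases hdet with h | h
      · exact Or.inl ((A3v_congr' hcong).1 h)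
      · exact Or.inr ((A3v_congr_dual hcong).1 h)
    have hor := Pr_or_le okh S
      (fun F => A3v (ctc (1 / n) z) (⌈r / (1 / (n : ℝ))⌉₊ + 3 + 2) m ↑F)
      (fun F => A3v (ctc (1 / n) z) (⌈r / (1 / (n : ℝ))⌉₊ + 3 + 2) m (dl '' (↑F : Set Edg)ᶜ))
    have hpow : (((⌈r / (1 / (n : ℝ))⌉₊ + 3 + 2 : ℕ) : ℝ) / (m : ℝ)) ^ (2/3 : ℝ) ≤
        (256 * (r / d)) ^ (2/3 : ℝ) :=
      Real.rpow_le_rpow (by positivity) s4 (by norm_num)
    have hx0 : 0 ≤ (256 * (r / d)) ^ (2/3 : ℝ) := by positivity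
    have h3 := mul_le_mul_of_nonneg_left hpow hCa.le
    have h4 := mul_le_mul_of_nonneg_left hpow hCd.le
    have h5 := hmono.trans (hor.trans (add_le_add (h1.trans h3) (h2.trans h4)))
    refine h5.trans ?_
    nlinarith
  · push Not at h256
    have h1 : PQ (1/2) S P ≤ 1 := Pr_le_one okh _ _
    refine h1.trans ?_
    have h2 : 1 ≤ 256 * (r / d) := by
      rw [← mul_div_assoc, le_div_iff₀ hd0]
      linarith
    have h3 : 1 ≤ (256 * (r / d)) ^ (2/3 : ℝ) := Real.one_le_rpow h2 (by norm_num)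
    nlinarith

end Run7.h165.CC
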