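import Pool.Agent.Run7.h165.CC.Up2

/-! # Accessible points of the limits of unions of clusters: the limits -/

set_option autoImplicit false

namespace Run7.h165.CC

open H974 H973 H12S Finset H389NS H984P H984N H342P H342L H342T H443B
open MeasureTheory Filter Topology Pool.Agent.W92.DP Pool.Agent.W822.PD Pool.Agent.W462.DPL
open Pool.Agent.W978.PDUL Pool.Agent.TH990.FU Run7.h165.EC
open Pool.Agent.W424.OD Pool.Agent.W571.DPad TopologicalSpace
open scoped ENNReal NNReal

/-- The points of `K` which are, at the scale `η`, accessible from the complement. -/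
def AccK (η : ℝ) (K : Set ℂ) : Set ℂ :=
  {w | w ∈ K ∧ η ≤ 1 ∧ ∀ r : ℝ, 0 < r →
    ∃ g : C(unitInterval, ℂ), dist (g 0) w < r ∧ η ≤ dist (g 1) w ∧ ∀ t, g t ∉ K}

theorem EvU_of {η r ρ : ℝ} {K : NonemptyCompacts ℂ} {z w : ℂ} (hw : w ∈ AccK η K)
    (hwz : dist w z < r) (hρ : ρ + r ≤ η) : K ∈ EvU z r ρ := by
  obtain ⟨hwK, -, hg⟩ := hw
  obtain ⟨g, hg0, hg1, hg⟩ := hg (r - dist w z) (by linarith)
  have hdis : Disjoint (Set.range g) (K : Set ℂ) := by
    rw [Set.disjoint_left]
    rintro _ ⟨t, rfl⟩ ht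
    exact hg t ht
  obtain ⟨ε, hε, hd⟩ := hdis.exists_thickenings (isCompact_range g.continuous)
    K.isCompact.isClosed
  obtain ⟨j, hj⟩ := exists_nat_one_div_lt hε
  refine Set.mem_iUnion.mpr ⟨j, ⟨w, hwK, hwz⟩, g, ?_, ?_, ε, hj, ?_⟩
  · have h6 := dist_triangle (g 0) w z
    linarith
  · have h6 := dist_triangle (g 1) z w
    rw [dist_comm z w] at h6
    linarith
  · intro p hp t
    by_contra hcon
    push Not at hcon
    have hz1 : p ∈ Metric.thickening ε (Set.range g) := by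
      rw [Metric.mem_thickening_iff]
      exact ⟨g t, ⟨t, rfl⟩, by rw [dist_comm]; exact hcon⟩
    exact Set.disjoint_left.mp hd hz1 (Metric.self_subset_thickening hε _ hp)

/-- The boundary of a component of the complement is accessible. -/
theorem comp_accK {K : Set ℂ} (hK : IsClosed K) (x : ℂ) :
    frontier (connectedComponentIn Kᶜ x) ⊆ ⋃ i : ℕ, AccK (1 / ((i:ℝ) + 1)) K := by
  intro w hw
  by_cases hx : x ∈ Kᶜ
  swap
  · rw [connectedComponentIn_eq_empty hx, frontier_empty] at hw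
    exact absurd hw (Set.notMem_empty _)
  set C := connectedComponentIn Kᶜ x with hC
  have hCo : IsOpen C := hK.isOpen_compl.connectedComponentIn
  have hCc : IsConnected C := isConnected_connectedComponentIn_iff.mpr hx
  have hxC : x ∈ C := mem_connectedComponentIn hx
  have hpc : IsPathConnected C := (hCo.isConnected_iff_isPathConnected).1 hCc
  have hwC : w ∉ C := by
    rw [frontier, hCo.interior_eq] at hw
    exact hw.2
  have hcl : w ∈ closure C := frontier_subset_closure hw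
  have hwK : w ∈ K := by
    by_contra hcon
    have ho : IsOpen (connectedComponentIn Kᶜ w) := hK.isOpen_compl.connectedComponentIn
    obtain ⟨y, hy1, hy2⟩ := mem_closure_iff.1 hcl _ ho (mem_connectedComponentIn hcon)
    apply hwC
    have h1 := connectedComponentIn_eq hy1
    have h2 := connectedComponentIn_eq hy2
    rw [hC, h2, ← h1]
    exact mem_connectedComponentIn hcon
  have hxw : 0 < dist x w := dist_pos.2 (fun h => hwC (h ▸ hxC))
  obtain ⟨i, hi⟩ := exists_nat_one_div_lt hxw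
  refine Set.mem_iUnion.2 ⟨i, hwK, ?_, fun r hr => ?_⟩
  · rw [div_le_one (by positivity)]
    have : (0:ℝ) ≤ i := Nat.cast_nonneg _
    linarith
  obtain ⟨y, hy, hyw⟩ := Metric.mem_closure_iff.mp hcl r hr
  obtain ⟨γ, hγ⟩ := hpc.joinedIn y hy x hxC
  refine ⟨⟨γ, γ.continuous⟩, ?_, ?_, fun t => ?_⟩
  · show dist (γ 0) w < r
    rw [γ.source, dist_comm]
    exact hyw
  · show _ ≤ dist (γ 1) w
    rw [γ.target]
    exact hi.le
  · exact connectedComponentIn_subset _ _ (hγ t)

theorem wide_open (r0 : ℝ) : IsOpen {K : NonemptyCompacts ℂ | Wide r0 K} := by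
  rw [Metric.isOpen_iff]
  rintro K ⟨a, ha, b, hb, hab⟩
  refine ⟨(dist a b - r0) / 2, by linarith, fun K' hK' => ?_⟩
  rw [Metric.mem_ball, dist_comm] at hK'
  obtain ⟨a', ha', h1⟩ := nc_near hK' a ha
  obtain ⟨b', hb', h2⟩ := nc_near hK' b hb
  refine ⟨a', ha', b', hb', ?_⟩
  have h3 := dist_triangle4 a a' b' b
  rw [dist_comm b' b] at h3
  linarith

section gen
variable {Ω : Type*} [TopologicalSpace Ω] [MeasurableSpace Ω] [OpensMeasurableSpace Ω]
  [HasOuterApproxClosed Ω]

open Classical in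
/-- the event of the covering argument -/
noncomputable def EU (Sel : Ω → Set (NonemptyCompacts ℂ)) (r0 d : ℝ) (z : ℂ) (r : ℝ) : Set Ω :=
  if d ≤ 1 then {ω | ∃ K ∈ Sel ω, K ∈ {K : NonemptyCompacts ℂ | Wide r0 K} ∩
    EvU z r (min d r0 / 2)} else ∅

/-- **upper bound** -/
theorem upG {Sel : Ω → Set (NonemptyCompacts ℂ)}
    (hSel : ∀ E : Set (NonemptyCompacts ℂ), IsOpen E → IsOpen {ω | ∃ K ∈ Sel ω, K ∈ E})
    (hU : U3) {D : Set ℂ} (hD : IsOpen D) {r0 : ℝ} (hr0 : 0 < r0) {k : ℕ → ℕ}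
    (hk : Tendsto k atTop atTop) {S : ℕ → Finset Edg} {G : ℕ → Finset Edg → Finset Edg}
    {X : ℕ → Finset Edg → Ω}
    (hag : ∀ C ⊆ D, IsCompact C → ∀ᶠ i in atTop, AgrOn (k i) (S i) (G i) C)
    (hX : ∀ i, ∀ F ⊆ S i, ∀ K ∈ Sel (X i F), Wide r0 K → UniC (k i) r0 (G i F) K)
    {μs : ℕ → ProbabilityMeasure Ω} {μ : ProbabilityMeasure Ω}
    (hlaw : ∀ i (E : Set Ω), IsOpen E →
      (μs i : Measure Ω) E = ENNReal.ofReal (PQ (1/2) (S i) (fun F => X i F ∈ E)))
    (hμ : Tendsto μs atTop (𝓝 μ)) (A : Set ℂ) :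
    ∀ᵐ ω ∂(μ : Measure Ω), ∀ K ∈ Sel ω, Wide r0 K → ∀ w : ℂ,
      dimH (frontier (connectedComponentIn (K : Set ℂ)ᶜ w) ∩ A ∩ D) ≤
        dimH A - ENNReal.ofReal (2/3) := by
  obtain ⟨C, hC, hP⟩ := probC hU
  have hC0 : 0 ≤ C := by linarith
  have hEo : ∀ (d : ℝ) (z : ℂ) (r : ℝ), IsOpen (EU Sel r0 d z r) := by
    intro d z r
    unfold EU
    split_ifs
    · exact hSel _ ((wide_open r0).inter (EvU_open _ _ _))
    · exact isOpen_empty
  have hm0 : 0 < min 1 r0 := lt_min one_pos hr0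
  have key := fixed_dim (E := EU Sel r0) (fun d z r => (hEo d z r).measurableSet)
    (S := fun η ω => ⋃ K ∈ Sel ω, {w | Wide r0 K ∧ w ∈ AccK η K}) ?_ hD
    (C := C * (1 / min 1 r0) ^ (2/3 : ℝ)) (s := 2/3) (by positivity) (by norm_num)
    (μ := (μ : Measure Ω)) ?_ A
  · filter_upwards [key] with ω hω K hK hw w
    refine (dimH_mono ?_).trans hω.1
    apply Set.inter_subset_inter_left
    apply Set.inter_subset_inter_left
    refine (comp_accK K.isCompact.isClosed w).trans (Set.iUnion_mono fun i => ?_)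
    intro y hy
    exact Set.mem_biUnion hK ⟨hw, hy⟩
  · -- the accessible points belong to the events
    intro η d z r w ω hdη hrd hw hwz
    obtain ⟨K, hK, hwide, hacc⟩ := Set.mem_iUnion₂.1 hw
    unfold EU
    rw [if_pos (hdη.trans hacc.2.1)]
    refine ⟨K, hK, hwide, EvU_of hacc hwz ?_⟩
    have := min_le_left d r0
    linarith
  · -- the probabilities
    intro z r d hr hrd hball
    unfold EU
    split_ifs with hd1
    swap
    · rw [measure_empty]
      exact zero_le
    have hd0 : 0 < d := hr.trans_le hrd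
    set d' : ℝ := min d r0 with hd'
    have hd'0 : 0 < d' := lt_min hd0 hr0
    have hd'd : d * min 1 r0 ≤ d' := by
      apply le_min
      · have := min_le_left 1 r0
        nlinarith
      · have := min_le_right 1 r0
        nlinarith
    have hbound : C * (r / d') ^ (2/3 : ℝ) ≤ C * (1 / min 1 r0) ^ (2/3 : ℝ) *
        (r / d) ^ (2/3 : ℝ) := by
      rw [mul_assoc, ← Real.mul_rpow (by positivity) (by positivity)]
      apply mul_le_mul_of_nonneg_left _ hC0
      apply Real.rpow_le_rpow (by positivity) _ (by norm_num)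
      have h1 : 1 / min 1 r0 * (r / d) = r / (d * min 1 r0) := by
        field_simp
      rw [h1]
      exact div_le_div_of_nonneg_left hr.le (by positivity) hd'd
    refine le_trans ?_ (ENNReal.ofReal_le_ofReal hbound)
    set Ej : ℕ → Set Ω := fun j => {ω | ∃ K ∈ Sel ω, K ∈ {K : NonemptyCompacts ℂ | Wide r0 K} ∩
      EvC z r (d' / 2) (1 / ((j:ℝ) + 1))} with hEj
    have hEjo : ∀ j, IsOpen (Ej j) := fun j => hSel _ ((wide_open r0).inter (EvC_open _ _ _ _))
    have hmono : Monotone Ej := by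
      rintro i j hij ω ⟨K, hK, h1, h2⟩
      exact ⟨K, hK, h1, EvC_anti (Nat.one_div_le_one_div hij) h2⟩
    have h : {ω | ∃ K ∈ Sel ω, K ∈ {K : NonemptyCompacts ℂ | Wide r0 K} ∩ EvU z r (d' / 2)} =
        ⋃ j : ℕ, Ej j := by
      ext ω
      simp only [Set.mem_iUnion, hEj, Set.mem_ofPred_eq, EvU, Set.mem_inter_iff]
      constructor
      · rintro ⟨K, hK, h1, j, h2⟩
        exact ⟨j, K, hK, h1, h2⟩
      · rintro ⟨j, K, hK, h1, h2⟩
        exact ⟨K, hK, h1, j, h2⟩
    rw [h, hmono.measure_iUnion]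
    refine iSup_le fun j => ?_
    refine (ProbabilityMeasure.le_liminf_measure_open_of_tendsto hμ (hEjo j)).trans ?_
    refine liminf_le_of_frequently_le (Eventually.frequently ?_)
    have hpos : 0 < min r (1 / ((j:ℝ) + 1) / 8) := lt_min hr (by positivity)
    have hlim : Tendsto (fun i => 1 / (k i : ℝ)) atTop (𝓝 0) :=
      tendsto_one_div_atTop_nhds_zero_nat.comp hk
    have hsub : Metric.closedBall z (d' / 2) ⊆ D := by
      refine (Metric.closedBall_subset_ball ?_).trans hball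
      have := min_le_left d r0
      linarith
    filter_upwards [hlim.eventually (gt_mem_nhds hpos), hk.eventually_ge_atTop 1,
      hag _ hsub (isCompact_closedBall _ _)] with i hi hi1 hi2
    have k1 := hi.le.trans (min_le_left _ _)
    have k3 := hi.le.trans (min_le_right _ _)
    rw [hlaw i _ (hEjo j)]
    apply ENNReal.ofReal_le_ofReal
    refine hP z r d' (1 / ((j:ℝ) + 1)) (k i) (S i) (G i) _ hr hd'0 hi2 ?_ hi1 k1 (by linarith)
    rintro F hF ⟨K, hK, hwide, ⟨q, hq, hqz⟩, g, hg0, hg1, ζ', hζ', hg⟩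
    obtain ⟨v, hqv, hvX, hwv⟩ := hX i F hF K hK hwide q hq
    refine ⟨v, q, hqv, hqz, ?_, g, hg0, hg1, fun p hp t => hζ'.trans_le (hg p (hvX hp) t)⟩
    obtain ⟨a, ha, b, hb, hab⟩ := hwv
    exact ⟨a, ha, b, hb, (min_le_right d r0).trans_lt hab⟩

end gen

end Run7.h165.CC
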