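import Pool.Agent.Run7.h165.CC.Up2
import Pool.Agent.Run7.h165.CC.Up3

/-! # Unions of clusters in general domains: deterministic part in all coordinates -/

set_option autoImplicit false

namespace Run7.h165.CC

open H974 H973 H12S Finset H389NS H984P H984N H342P H342L H342T H443B
open MeasureTheory Filter Topology Pool.Agent.W92.DP Pool.Agent.W822.PD Pool.Agent.W462.DPL
open Pool.Agent.W978.PDUL Pool.Agent.TH990.FU Run7.h165.EC
open Pool.Agent.W424.OD Pool.Agent.W571.DPad TopologicalSpace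
open scoped ENNReal NNReal

theorem pt_one (v : Vtx) : pt 1 v = ⟨v.1, v.2⟩ := by
  unfold pt
  simp

/-- the coordinates of the lattice -/
noncomputable def lc (δ : ℝ) (o : ℂ) (z : ℂ) : ℂ := (z - o) / (δ : ℂ)

theorem lc_re {δ : ℝ} {o z : ℂ} : (lc δ o z).re = (z.re - o.re) / δ := by
  unfold lc
  rw [Complex.div_ofReal_re, Complex.sub_re]

theorem lc_im {δ : ℝ} {o z : ℂ} : (lc δ o z).im = (z.im - o.im) / δ := by
  unfold lc
  rw [Complex.div_ofReal_im, Complex.sub_im]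

theorem lc_zp {δ : ℝ} (hδ : 0 < δ) (o : ℂ) (v : Vtx) : lc δ o (zp δ o v) = pt 1 v := by
  rw [pt_one]
  apply Complex.ext
  · rw [lc_re]
    show (o.re + δ * v.1 - o.re) / δ = v.1
    field_simp
    ring
  · rw [lc_im]
    show (o.im + δ * v.2 - o.im) / δ = v.2
    field_simp
    ring

theorem lc_dist {δ : ℝ} (hδ : 0 < δ) (o z w : ℂ) : dist (lc δ o z) (lc δ o w) = dist z w / δ := by
  unfold lc
  rw [dist_eq_norm, dist_eq_norm, ← sub_div, norm_div, Complex.norm_real, Real.norm_eq_abs,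
    abs_of_pos hδ]
  congr 2
  ring

theorem ctc_lc {δ : ℝ} {o z : ℂ} : ctc (1 / ((1 : ℕ) : ℝ)) (lc δ o z) = vz δ o z := by
  show (⌊(lc δ o z).re / (1 / ((1 : ℕ) : ℝ))⌋, ⌊(lc δ o z).im / (1 / ((1 : ℕ) : ℝ))⌋) =
    (⌊(z.re - o.re) / δ⌋, ⌊(z.im - o.im) / δ⌋)
  rw [lc_re, lc_im]
  simp

theorem seg_len {e : Plain.Edge} : dist (pt 1 (Plain.snd e)) (pt 1 (Plain.fst e)) ≤ 1 := by
  obtain ⟨a, b, c⟩ := e
  rw [pt_one, pt_one, dist_eq_norm]
  cases c
  · have : ((⟨((Plain.snd (a, b, false)).1 : ℝ), ((Plain.snd (a, b, false)).2 : ℝ)⟩ : ℂ) -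
        ⟨((Plain.fst (a, b, false)).1 : ℝ), ((Plain.fst (a, b, false)).2 : ℝ)⟩) = Complex.I := by
      apply Complex.ext <;> simp [Plain.fst, Plain.snd]
    rw [this, Complex.norm_I]
  · have : ((⟨((Plain.snd (a, b, true)).1 : ℝ), ((Plain.snd (a, b, true)).2 : ℝ)⟩ : ℂ) -
        ⟨((Plain.fst (a, b, true)).1 : ℝ), ((Plain.fst (a, b, true)).2 : ℝ)⟩) = 1 := by
      apply Complex.ext <;> simp [Plain.fst, Plain.snd]
    rw [this, norm_one]

theorem body_near {G : Finset Plain.Edge} {v : ℤ × ℤ} {p : ℂ} (hp : p ∈ body 1 G v) :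
    ∃ w ∈ Plain.cluster G v, dist p (pt 1 w) ≤ 1 := by
  rcases hp with hp | hp
  · obtain ⟨w, hw, hpw⟩ := Set.mem_iUnion₂.1 hp
    rw [Set.mem_singleton_iff] at hpw
    exact ⟨w, hw, by rw [hpw, dist_self]; norm_num⟩
  · obtain ⟨e, he, hpe⟩ := Set.mem_iUnion₂.1 hp
    refine ⟨Plain.fst e, he.2, ?_⟩
    exact Metric.mem_closedBall.1 ((convex_closedBall (pt 1 (Plain.fst e)) 1).segment_subset
      (Metric.mem_closedBall_self (by norm_num)) (Metric.mem_closedBall.2 seg_len) hpe)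

/-- truncation of a configuration -/
theorem trunc_reach {G : Set Edg} {S : Set Vtx} (hS : ∀ u ∈ S, ∀ v, Reach G u v → v ∈ S)
    {G' : Set Edg} (hsub : G' ⊆ G) (hbig : ∀ e ∈ G, src e ∈ S → tgt e ∈ S → e ∈ G') {u : Vtx}
    (hu : u ∈ S) (w : Vtx) : Reach G' u w ↔ Reach G u w := by
  constructor
  · intro h
    induction h with
    | refl => exact Reach.refl _ _
    | tail _ hs ih =>
      obtain ⟨e, he, h⟩ := hs
      exact ih.tail ⟨e, hsub he, h⟩
  · intro h
    induction h with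
    | refl => exact Reach.refl _ _
    | tail hp hs ih =>
      obtain ⟨e, he, h⟩ := hs
      have h1 := hS u hu _ hp
      have h2 := hS u hu _ (Relation.ReflTransGen.tail hp ⟨e, he, h⟩)
      refine ih.tail ⟨e, hbig e he ?_ ?_, h⟩
      · rcases h with h | h
        · rw [h.1]; exact h1
        · rw [h.1]; exact h2
      · rcases h with h | h
        · rw [h.2]; exact h2
        · rw [h.2]; exact h1

/-- a finite set of vertices is in a box -/
theorem in_box {S : Set Vtx} (hS : S.Finite) : ∃ M : ℤ, ∀ u ∈ S, inR (-M) M (-M) M u := by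
  classical
  obtain ⟨M1, h1⟩ := (hS.image (fun u : Vtx => |u.1|)).bddAbove
  obtain ⟨M2, h2⟩ := (hS.image (fun u : Vtx => |u.2|)).bddAbove
  refine ⟨max M1 M2, fun u hu => ?_⟩
  have e1 : |u.1| ≤ M1 := h1 (Set.mem_image_of_mem _ hu)
  have e2 : |u.2| ≤ M2 := h2 (Set.mem_image_of_mem _ hu)
  have e3 := e1.trans (le_max_left M1 M2)
  have e4 := e2.trans (le_max_right M1 M2)
  rw [abs_le] at e3 e4
  exact ⟨e3, e4⟩

theorem mem_box {M : ℤ} {e : Edg} (h1 : inR (-M) M (-M) M (src e))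
    (h2 : inR (-M) M (-M) M (tgt e)) : e ∈ RE (-M) M (-M) M := by
  obtain ⟨x, y, _ | _⟩ := e
  · rw [tgt_false] at h2
    unfold inR at h1 h2
    simp only [src] at h1 h2
    simp only [mem_RE_false]
    omega
  · rw [tgt_true] at h2
    unfold inR at h1 h2
    simp only [src] at h1 h2
    simp only [mem_RE_true]
    omega

/-- **the deterministic part, in all coordinates** -/
theorem detS {δ : ℝ} (hδ : 0 < δ) {o z : ℂ} {r d ζ : ℝ} (hδr : δ ≤ r) (hd : 256 * r ≤ d)
    (hζ : 16 * δ ≤ ζ) {G : Set Edg} {S : Set Vtx} (hS : ∀ u ∈ S, ∀ v, Reach G u v → v ∈ S)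
    (hfin : S.Finite) {u v : Vtx} (hu : u ∈ S) (huz : dist (zp δ o u) z < r)
    (huv : Reach G u v) (hdist : d < dist (zp δ o u) (zp δ o v)) {g : C(unitInterval, ℂ)}
    (hg0 : dist (g 0) z < r) (hg1 : d / 2 < dist (g 1) z)
    (hg : ∀ w ∈ S, ∀ t, ζ ≤ dist (g t) (zp δ o w)) :
    A3v (vz δ o z) (⌈r / δ⌉₊ + 3 + 2) (⌊d / (8 * δ)⌋₊ - 2) G ∨
      A3v (vz δ o z) (⌈r / δ⌉₊ + 3 + 2) (⌊d / (8 * δ)⌋₊ - 2) (dl '' Gᶜ) := by
  classical
  obtain ⟨M, hM⟩ := in_box hfin
  set k : ℕ := ⌊d / (8 * δ)⌋₊ - 2 with hk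
  set B : Finset Edg := RE (-M) M (-M) M ∪ H12S.blk (vz δ o z) (k + 1) with hB
  set G' : Finset Edg := B.filter (fun e => e ∈ G) with hG'
  have hsub : (↑G' : Set Edg) ⊆ G := fun e he => (Finset.mem_filter.1 (Finset.mem_coe.1 he)).2
  have hcong : ∀ e ∈ H12S.blk (vz δ o z) (k + 1), (e ∈ (↑G' : Set Edg) ↔ e ∈ G) := by
    intro e he
    rw [Finset.mem_coe, hG', Finset.mem_filter]
    exact ⟨fun h => h.2, fun h => ⟨Finset.mem_union_right _ he, h⟩⟩
  have hreach := fun w => trunc_reach hS hsub (fun e he h1 h2 => by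
    rw [Finset.mem_coe, hG', Finset.mem_filter]
    exact ⟨Finset.mem_union_left _ (mem_box (hM _ h1) (hM _ h2)), he⟩) hu w
  have hcl : ∀ w ∈ Plain.cluster G' u, w ∈ S := by
    intro w hw
    rw [Plain.mem_cluster] at hw
    exact hS u hu w ((hreach w).1 hw)
  have hvcl : v ∈ Plain.cluster G' u := by
    rw [Plain.mem_cluster]
    exact (hreach v).2 huv
  have hucl : u ∈ Plain.cluster G' u := SimpleGraph.Reachable.refl _
  have h := detC (z := lc δ o z) (r := r / δ) (d := d / δ) (ζ := ζ / δ - 2) (n := 1) one_pos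
    (by
      rw [Nat.cast_one, div_one, le_div_iff₀ hδ]
      linarith)
    (by
      rw [← mul_div_assoc]
      exact div_le_div_of_nonneg_right hd hδ.le)
    (by
      have : 16 ≤ ζ / δ := by
        rw [le_div_iff₀ hδ]
        exact hζ
      rw [Nat.cast_one, div_one]
      linarith)
    (G := G') (v := u)
    ⟨pt 1 u, body_pt hucl, pt 1 v, body_pt hvcl, by
      rw [← lc_zp hδ o u, ← lc_zp hδ o v, lc_dist hδ]
      exact div_lt_div_of_pos_right hdist hδ⟩
    (body_pt hucl) (by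
      rw [← lc_zp hδ o u, lc_dist hδ]
      exact div_lt_div_of_pos_right huz hδ)
    (g := ⟨fun t => lc δ o (g t), by unfold lc; fun_prop⟩) (by
      show dist (lc δ o (g 0)) (lc δ o z) < _
      rw [lc_dist hδ]
      exact div_lt_div_of_pos_right hg0 hδ)
    (by
      show _ < dist (lc δ o (g 1)) (lc δ o z)
      rw [lc_dist hδ, div_right_comm]
      exact div_lt_div_of_pos_right hg1 hδ)
    (by
      intro p hp t
      show _ < dist (lc δ o (g t)) p
      obtain ⟨w, hw, hpw⟩ := body_near hp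
      have h1 := hg w (hcl w hw) t
      have h2 : dist (lc δ o (g t)) (pt 1 w) = dist (g t) (zp δ o w) / δ := by
        rw [← lc_zp hδ o w, lc_dist hδ]
      have h3 : ζ / δ ≤ dist (lc δ o (g t)) (pt 1 w) := by
        rw [h2]
        exact div_le_div_of_nonneg_right h1 hδ.le
      have h4 := dist_triangle (lc δ o (g t)) p (pt 1 w)
      linarith)
  have e1 : r / δ / (1 / ((1 : ℕ) : ℝ)) = r / δ := by simp
  have e2 : d / δ / (8 * (1 / ((1 : ℕ) : ℝ))) = d / (8 * δ) := by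
    rw [Nat.cast_one, div_one, mul_one, div_div, mul_comm]
  rw [ctc_lc, e1, e2, ← hk] at h
  rcases h with h | h
  · exact Or.inl ((A3v_congr' hcong).1 h)
  · exact Or.inr ((A3v_congr_dual hcong).1 h)

end Run7.h165.CC
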